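import Pool.Agent.H7.UC.IfaceA

set_option autoImplicit false

/-!
# Interface between A3 (existence of limits) and A4 (uniqueness) of the uniform Cardy formula
-/

namespace Pool.Agent.H21.UC

open Pool.Agent.H7.UC Metric Set

/-- The open arc of the unit circle between `p j` and `p (j+1)` which does not contain `p (j+2)`
(no orientation is assumed). -/
def arc (p : Fin 3 → ℂ) (j : Fin 3) : Set ℂ :=
  {q | ‖q‖ = 1 ∧ 0 < (crossR (p j) q (p (j + 1)) (p (j + 2))).re ∧
    (crossR (p j) q (p (j + 1)) (p (j + 2))).re < 1}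

/-- Limit data: three functions on the closed disc minus the marks. -/
structure LimData (p : Fin 3 → ℂ) (F : Fin 3 → ℂ → ℝ) : Prop where
  mark : ∀ j, ‖p j‖ = 1
  inj : Function.Injective p
  cont : ∀ j, ContinuousOn (F j) (closedBall 0 1 \ range p)
  nonneg : ∀ j, ∀ q ∈ closedBall (0 : ℂ) 1 \ range p, 0 ≤ F j q
  sum : ∀ q ∈ closedBall (0 : ℂ) 1 \ range p, ∑ j : Fin 3, F j q = 1
  holo : DifferentiableOn ℂ (fun q => ∑ j : Fin 3, tau ^ (j : ℕ) * (F j q : ℂ)) (ball 0 1)
  bdry : ∀ j, ∀ q ∈ arc p j, F (j + 2) q = 0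

/-- A4 (uniqueness): on the arc between `p 0` and `p 1` the function `F 1` is Cardy's function. -/
def A4 : Prop := ∀ (p : Fin 3 → ℂ) (F : Fin 3 → ℂ → ℝ), LimData p F → ∀ q ∈ arc p 0,
  F 1 q = Pool.Agent.H13.Q1.Four.cardy (crossR (p 0) q (p 1) (p 2)).re

end Pool.Agent.H21.UC
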