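import Pool.Agent.H21.UC.Morera
import Pool.Agent.H21.UC.Lim

set_option autoImplicit false

/-!
# Hexagons in the coordinates `1, om`; charts and small sets
-/

namespace Pool.Agent.H21.UC

open Pool.Agent.H7.UC Metric Set Filter Topology ComplexConjugate

lemma om_sq : om ^ 2 = om - 1 := by
  have h3 : √3 * √3 = 3 := Real.mul_self_sqrt (by norm_num)
  apply Complex.ext
  · rw [pow_two, Complex.mul_re, om_re, om_im, Complex.sub_re, om_re, Complex.one_re]
    linarith
  · rw [pow_two, Complex.mul_im, om_re, om_im, Complex.sub_im, om_im, Complex.one_im]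
    ring

lemma om_conj : conj om = 1 - om := by
  apply Complex.ext
  · rw [Complex.conj_re, Complex.sub_re, om_re, Complex.one_re]; norm_num
  · rw [Complex.conj_im, Complex.sub_im, om_im, Complex.one_im]; ring

lemma tau_eq : tau = om - 1 := by
  rw [← om_sq, tau, om, ← Complex.exp_nat_mul]
  congr 1
  push_cast
  ring

lemma tau_sq : tau ^ 2 = -om := by
  rw [tau_eq]
  linear_combination om_sq

lemma one_tau : 1 + tau + tau ^ 2 = 0 := by
  rw [tau_sq, tau_eq]; ring

lemma re_comb0 (x y : ℝ) : (((x : ℂ) + y * om) * conj (om ^ 0)).re = x + y / 2 := by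
  simp only [pow_zero, map_one, mul_one, Complex.add_re, Complex.ofReal_re, Complex.mul_re,
    Complex.ofReal_im, om_re, om_im]
  ring

lemma re_comb1 (x y : ℝ) : (((x : ℂ) + y * om) * conj (om ^ 1)).re = x / 2 + y := by
  have h3 : √3 * √3 = 3 := Real.mul_self_sqrt (by norm_num)
  simp only [pow_one, Complex.add_re, Complex.ofReal_re, Complex.mul_re, Complex.add_im,
    Complex.ofReal_im, om_re, om_im, Complex.conj_re, Complex.conj_im, Complex.mul_im]
  linear_combination (y / 4) * h3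

lemma re_comb2 (x y : ℝ) : (((x : ℂ) + y * om) * conj (om ^ 2)).re = (y - x) / 2 := by
  have h3 : √3 * √3 = 3 := Real.mul_self_sqrt (by norm_num)
  rw [om_sq]
  simp only [Complex.add_re, Complex.ofReal_re, Complex.mul_re, Complex.add_im,
    Complex.ofReal_im, om_re, om_im, Complex.conj_re, Complex.conj_im, Complex.mul_im,
    Complex.sub_re, Complex.sub_im, Complex.one_re, Complex.one_im]
  linear_combination (y / 4) * h3

/-- the cell in coordinates -/
lemma mem_cell {f : Fc} {z : ℂ} : z ∈ cell f ↔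
    |2 * (cx z - f.1) + (cy z - f.2)| ≤ 1 ∧ |(cx z - f.1) + 2 * (cy z - f.2)| ≤ 1 ∧
    |(cy z - f.2) - (cx z - f.1)| ≤ 1 := by
  have hz : z - ctr f = ((cx z - f.1 : ℝ) : ℂ) + ((cy z - f.2 : ℝ) : ℂ) * om := by
    have := coord z
    rw [ctr]
    push_cast
    linear_combination -this
  have key : ∀ t : ℝ, |t / 2| ≤ 1 / 2 ↔ |t| ≤ 1 := by
    intro t
    rw [abs_div, abs_two]
    constructor <;> intro h <;> linarith
  rw [cell, mem_setOf_eq, hz]
  constructor
  · intro h
    have h0 := h 0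
    have h1 := h 1
    have h2 := h 2
    rw [Fin.val_zero, re_comb0] at h0
    rw [Fin.val_one, re_comb1] at h1
    rw [Fin.val_two, re_comb2] at h2
    refine ⟨?_, ?_, ?_⟩
    · rw [← key]; convert h0 using 2; ring
    · rw [← key]; convert h1 using 2; ring
    · rw [← key]; exact h2
  · rintro ⟨h0, h1, h2⟩ k
    rw [← key] at h0 h1 h2
    fin_cases k
    · simp only [Fin.zero_eta, Fin.val_zero]
      rw [re_comb0]; convert h0 using 2; ring
    · simp only [Fin.mk_one, Fin.val_one]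
      rw [re_comb1]; convert h1 using 2; ring
    · simp only [Fin.reduceFinMk, Fin.val_two]
      rw [re_comb2]; exact h2

lemma norm_sq_comb (x y : ℝ) : ‖(x : ℂ) + y * om‖ ^ 2 = x ^ 2 + x * y + y ^ 2 := by
  have h3 : √3 * √3 = 3 := Real.mul_self_sqrt (by norm_num)
  rw [← Complex.normSq_eq_norm_sq, Complex.normSq_apply]
  simp only [Complex.add_re, Complex.ofReal_re, Complex.mul_re, Complex.add_im,
    Complex.ofReal_im, om_re, om_im, Complex.mul_im]
  linear_combination (y ^ 2 / 4) * h3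

lemma sub_ctr (f : Fc) (z : ℂ) :
    z - ctr f = ((cx z - f.1 : ℝ) : ℂ) + ((cy z - f.2 : ℝ) : ℂ) * om := by
  have := coord z
  rw [ctr]
  push_cast
  linear_combination -this

lemma cell_norm {f : Fc} {z : ℂ} (hz : z ∈ cell f) : ‖z - ctr f‖ ≤ 1 := by
  obtain ⟨h1, h2, h3⟩ := mem_cell.1 hz
  have e := norm_sq_comb (cx z - f.1) (cy z - f.2)
  rw [← sub_ctr] at e
  have h : ‖z - ctr f‖ ^ 2 ≤ 1 := by
    rw [e]
    nlinarith [sq_le_one_iff_abs_le_one (2 * (cx z - f.1) + (cy z - f.2)) |>.2 h1,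
      sq_le_one_iff_abs_le_one ((cx z - f.1) + 2 * (cy z - f.2)) |>.2 h2,
      sq_le_one_iff_abs_le_one ((cy z - f.2) - (cx z - f.1)) |>.2 h3]
  rw [← abs_of_nonneg (norm_nonneg (z - ctr f)), ← sq_le_one_iff_abs_le_one]
  exact h

lemma cell_dist {f : Fc} {z w : ℂ} (hz : z ∈ cell f) (hw : w ∈ cell f) : ‖z - w‖ ≤ 2 := by
  have h1 := cell_norm hz
  have h2 := cell_norm hw
  calc ‖z - w‖ = ‖(z - ctr f) - (w - ctr f)‖ := by congr 1; ring
    _ ≤ ‖z - ctr f‖ + ‖w - ctr f‖ := norm_sub_le _ _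
    _ ≤ 2 := by linarith

lemma cell_closed (f : Fc) : IsClosed (cell f) := by
  have : cell f = ⋂ k : Fin 3, {z | |((z - ctr f) * conj (om ^ (k : ℕ))).re| ≤ 1 / 2} := by
    ext z; simp [cell]
  rw [this]
  apply isClosed_iInter
  intro k
  apply isClosed_le
  · exact (Complex.continuous_re.comp ((continuous_id.sub continuous_const).mul
      continuous_const)).abs
  · exact continuous_const

lemma cell_convex (f : Fc) : Convex ℝ (cell f) := by
  intro z hz w hw a b ha hb hab k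
  have e : ((a • z + b • w - ctr f) * conj (om ^ (k : ℕ))).re =
      a * ((z - ctr f) * conj (om ^ (k : ℕ))).re + b * ((w - ctr f) * conj (om ^ (k : ℕ))).re := by
    have e1 : (a • z + b • w - ctr f) * conj (om ^ (k : ℕ)) =
        (a : ℂ) * ((z - ctr f) * conj (om ^ (k : ℕ))) +
        (b : ℂ) * ((w - ctr f) * conj (om ^ (k : ℕ))) := by
      have hab' : (a : ℂ) + b = 1 := by exact_mod_cast hab
      rw [Complex.real_smul, Complex.real_smul]
      linear_combination (ctr f * conj (om ^ (k : ℕ))) * hab'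
    rw [e1, Complex.add_re, Complex.re_ofReal_mul, Complex.re_ofReal_mul]
  rw [e]
  refine (abs_add_le _ _).trans ?_
  rw [abs_mul, abs_mul, abs_of_nonneg ha, abs_of_nonneg hb]
  have h1 := mul_le_mul_of_nonneg_left (hz k) ha
  have h2 := mul_le_mul_of_nonneg_left (hw k) hb
  calc _ ≤ a * (1 / 2) + b * (1 / 2) := add_le_add h1 h2
    _ = (a + b) * (1 / 2) := by ring
    _ = 1 / 2 := by rw [hab, one_mul]

lemma ball_sub_cell (f : Fc) : ball (ctr f) (1 / 2) ⊆ cell f := by
  intro z hz k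
  rw [mem_ball, dist_eq_norm] at hz
  refine (Complex.abs_re_le_norm _).trans ?_
  rw [norm_mul, Complex.norm_conj, norm_pow, om_norm, one_pow, mul_one]
  exact hz.le

lemma cell_closure (f : Fc) : closure (interior (cell f)) = cell f := by
  rw [(cell_convex f).closure_interior_eq_closure_of_nonempty_interior]
  · exact (cell_closed f).closure_eq
  · exact ⟨ctr f, interior_mono (ball_sub_cell f) (by
      rw [isOpen_ball.interior_eq]; exact mem_ball_self (by norm_num))⟩

lemma cell_sub_closure {U : Finset Fc} {f : Fc} (hf : f ∈ U) : cell f ⊆ closure (reg U) := by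
  rw [← cell_closure f]
  apply closure_mono
  apply interior_mono
  exact subset_biUnion_of_mem (u := fun f => cell f) hf

lemma union_closed (U : Finset Fc) : IsClosed (⋃ f ∈ U, cell f) :=
  U.finite_toSet.isClosed_biUnion (fun f _ => cell_closed f)

lemma reg_sub (U : Finset Fc) : reg U ⊆ ⋃ f ∈ U, cell f := interior_subset

lemma closure_sub (U : Finset Fc) : closure (reg U) ⊆ ⋃ f ∈ U, cell f :=
  closure_minimal (reg_sub U) (union_closed U)

lemma exists_cell {U : Finset Fc} {z : ℂ} (hz : z ∈ closure (reg U)) : ∃ f ∈ U, z ∈ cell f := by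
  have := closure_sub U hz
  simpa using this

lemma cx_ctr (f : Fc) : cx (ctr f) = f.1 := by
  rw [ctr, show ((f.1 : ℂ) + (f.2 : ℂ) * om) = ((f.1 : ℝ) : ℂ) + ((f.2 : ℝ) : ℂ) * om by
    push_cast; ring, cx_comb]

lemma cy_ctr (f : Fc) : cy (ctr f) = f.2 := by
  rw [ctr, show ((f.1 : ℂ) + (f.2 : ℂ) * om) = ((f.1 : ℝ) : ℂ) + ((f.2 : ℝ) : ℂ) * om by
    push_cast; ring, cy_comb]

lemma ctr_mem_cell {f g : Fc} (h : ctr f ∈ cell g) : f = g := by
  obtain ⟨h1, h2, h3⟩ := mem_cell.1 h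
  rw [cx_ctr, cy_ctr] at h1 h2 h3
  have e1 : |2 * (f.1 - g.1) + (f.2 - g.2)| ≤ 1 := by exact_mod_cast h1
  have e2 : |(f.1 - g.1) + 2 * (f.2 - g.2)| ≤ 1 := by exact_mod_cast h2
  have e3 : |(f.2 - g.2) - (f.1 - g.1)| ≤ 1 := by exact_mod_cast h3
  rw [abs_le] at e1 e2 e3
  apply Prod.ext <;> omega

lemma mem_of_ctr {U : Finset Fc} {f : Fc} (h : ctr f ∈ reg U) : f ∈ U := by
  obtain ⟨g, hg, hfg⟩ := exists_cell (subset_closure h)
  rwa [ctr_mem_cell hfg]

lemma ctr_mem_of {U : Finset Fc} {f : Fc} (h : f ∈ U) : ctr f ∈ reg U := by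
  apply interior_mono (subset_biUnion_of_mem (u := fun f => cell f) h)
  apply interior_mono (ball_sub_cell f)
  rw [isOpen_ball.interior_eq]
  exact mem_ball_self (by norm_num)

/-- faces of a vertex in coordinates: `fc v k` differs from `fc v 1` (up) by small steps -/
lemma mid_mem (v : Vx) (k : Fin 3) : mid v k ∈ cell (fc v (k + 1)) ∧ mid v k ∈ cell (fc v (k + 2)) := by
  have key : ∀ f g : Fc, |2 * (g.1 - f.1) + (g.2 - f.2)| ≤ 2 → |(g.1 - f.1) + 2 * (g.2 - f.2)| ≤ 2 →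
      |(g.2 - f.2) - (g.1 - f.1)| ≤ 2 → (ctr f + ctr g) / 2 ∈ cell f := by
    intro f g h1 h2 h3
    have hx : cx ((ctr f + ctr g) / 2) - f.1 = (g.1 - f.1) / 2 := by
      have : (ctr f + ctr g) / 2 = (((f.1 + g.1) / 2 : ℝ) : ℂ) + (((f.2 + g.2) / 2 : ℝ) : ℂ) * om := by
        rw [ctr, ctr]; push_cast; ring
      rw [this, cx_comb]; ring
    have hy : cy ((ctr f + ctr g) / 2) - f.2 = (g.2 - f.2) / 2 := by
      have : (ctr f + ctr g) / 2 = (((f.1 + g.1) / 2 : ℝ) : ℂ) + (((f.2 + g.2) / 2 : ℝ) : ℂ) * om := by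
        rw [ctr, ctr]; push_cast; ring
      rw [this, cy_comb]; ring
    have e1 : |2 * ((g.1 : ℝ) - f.1) + (g.2 - f.2)| ≤ 2 := by exact_mod_cast h1
    have e2 : |((g.1 : ℝ) - f.1) + 2 * (g.2 - f.2)| ≤ 2 := by exact_mod_cast h2
    have e3 : |((g.2 : ℝ) - f.2) - (g.1 - f.1)| ≤ 2 := by exact_mod_cast h3
    rw [mem_cell, hx, hy]
    rw [abs_le] at e1 e2 e3
    refine ⟨?_, ?_, ?_⟩ <;> rw [abs_le] <;> constructor <;> linarith
  constructor
  · apply key <;>
    · obtain ⟨i, j, b⟩ := v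
      fin_cases k <;> cases b <;> simp [fc]
  · rw [show mid v k = (ctr (fc v (k + 2)) + ctr (fc v (k + 1))) / 2 by rw [mid]; ring]
    apply key <;>
    · obtain ⟨i, j, b⟩ := v
      fin_cases k <;> cases b <;> simp [fc]

lemma pv_mem (v : Vx) (k : Fin 3) : pv v ∈ cell (fc v k) := by
  obtain ⟨i, j, b⟩ := v
  cases b
  · have e : pv (i, j, false) = (((i : ℝ) + 1 / 3 : ℝ) : ℂ) + (((j : ℝ) + 1 / 3 : ℝ) : ℂ) * om := by
      simp only [pv, fc, ctr]; push_cast; ring
    rw [e, mem_cell, cx_comb, cy_comb]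
    fin_cases k <;> simp only [fc] <;> push_cast <;>
      refine ⟨?_, ?_, ?_⟩ <;> rw [abs_le] <;> constructor <;> linarith
  · have e : pv (i, j, true) = (((i : ℝ) + 2 / 3 : ℝ) : ℂ) + (((j : ℝ) + 2 / 3 : ℝ) : ℂ) * om := by
      simp only [pv, fc, ctr]; push_cast; ring
    rw [e, mem_cell, cx_comb, cy_comb]
    fin_cases k <;> simp only [fc] <;> push_cast <;>
      refine ⟨?_, ?_, ?_⟩ <;> rw [abs_le] <;> constructor <;> linarith

lemma inE_iff (U : Finset Fc) (v : Vx) (k : Fin 3) :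
    inE U (ed v k) ↔ fc v (k + 1) ∈ U ∨ fc v (k + 2) ∈ U := by
  rcases faces_ed v k with ⟨-, h1, h2⟩ | ⟨-, h1, h2⟩
  · rw [inE, h1, h2]
  · rw [inE, h1, h2, or_comm]

lemma mid_mem_closure {U : Finset Fc} {v : Vx} {k : Fin 3} (h : inE U (ed v k)) :
    mid v k ∈ closure (reg U) := by
  rcases (inE_iff U v k).1 h with h | h
  · exact cell_sub_closure h (mid_mem v k).1
  · exact cell_sub_closure h (mid_mem v k).2

/-! ### charts -/

section Chart

variable {Dm : Set ℂ} {φ : ℂ → ℂ}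

lemma chart_preconn (h : DiscChart Dm φ) {T : Set ℂ} (hT : IsPreconnected T) (hTD : T ⊆ closure Dm) :
    IsPreconnected (closedBall (0 : ℂ) 1 ∩ φ ⁻¹' T) := by
  set f : closedBall (0 : ℂ) 1 → ℂ := fun x => φ x with hf
  have hfc : Continuous f := continuousOn_iff_continuous_domRestrict.1 h.cont
  have hcl : IsClosedMap f := hfc.isClosedMap
  have hinj : Function.Injective f := fun a b hab => Subtype.ext (h.inj a.2 b.2 hab)
  have hsub : T ⊆ range f := by
    intro t ht
    have := hTD ht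
    rw [← h.imgc] at this
    obtain ⟨x, hx, rfl⟩ := this
    exact ⟨⟨x, hx⟩, rfl⟩
  have h1 := hT.preimage_of_isClosedMap hinj hcl hsub
  have h2 := h1.image Subtype.val continuous_subtype_val.continuousOn
  convert h2 using 1
  ext x
  constructor
  · rintro ⟨hx, hx2⟩
    exact ⟨⟨x, hx⟩, hx2, rfl⟩
  · rintro ⟨⟨y, hy⟩, hy2, rfl⟩
    exact ⟨hy, hy2⟩

lemma chart_surj (h : DiscChart Dm φ) {w : ℂ} (hw : w ∈ closure Dm) : ∃ q, ‖q‖ ≤ 1 ∧ φ q = w := by
  rw [← h.imgc] at hw
  obtain ⟨q, hq, rfl⟩ := hw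
  exact ⟨q, by simpa using hq, rfl⟩

lemma chart_circle (h : DiscChart Dm φ) (hD : IsOpen Dm) {q : ℂ} (hq : ‖q‖ ≤ 1) :
    φ q ∈ frontier Dm ↔ ‖q‖ = 1 := by
  rw [hD.frontier_eq]
  constructor
  · rintro ⟨-, h2⟩
    by_contra hne
    exact h2 (h.img ▸ ⟨q, by rw [mem_ball_zero_iff]; exact lt_of_le_of_ne hq hne, rfl⟩)
  · intro h1
    refine ⟨h.imgc ▸ ⟨q, by simpa using hq, rfl⟩, fun h2 => ?_⟩
    rw [← h.img] at h2
    obtain ⟨x, hx, hx2⟩ := h2
    have : x = q := h.inj (ball_subset_closedBall hx) (by simpa using hq) hx2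
    rw [this, mem_ball_zero_iff, h1] at hx
    exact lt_irrefl _ hx

end Chart

end Pool.Agent.H21.UC
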