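import Pool.Agent.H21.UC.Circ
import Pool.Agent.H21.UC.Cell

set_option autoImplicit false

/-!
# The boundary arcs `C j` correspond to the arcs of the circle between the marks
-/

namespace Pool.Agent.H21.UC

open Pool.Agent.H7.UC Metric Set Filter Topology ComplexConjugate

/-- up vertex of an edge -/
def uv (e : Ed) : Vx := (e.1, e.2.1, false)

lemma ed_uv (e : Ed) : ed (uv e) e.2.2 = e := by
  obtain ⟨i, j, k⟩ := e
  rfl

/-- the closed segment of an edge -/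
noncomputable def sg (e : Ed) : Set ℂ := segment ℝ (pv (uv e)) (pv (nb (uv e) e.2.2))

lemma sg_ed (v : Vx) (k : Fin 3) : sg (ed v k) = segment ℝ (pv v) (pv (nb v k)) := by
  obtain ⟨i, j, b⟩ := v
  cases b
  · rfl
  · rw [sg, segment_symm]
    have h1 : nb (uv (ed (i, j, true) k)) (ed (i, j, true) k).2.2 = (i, j, true) := by
      fin_cases k <;> simp [ed, uv, nb]
    have h2 : uv (ed (i, j, true) k) = nb (i, j, true) k := by
      fin_cases k <;> simp [ed, uv, nb]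
    rw [h1, h2]

lemma pv_up (i j : ℤ) : pv (i, j, false) =
    (((i : ℝ) + 1 / 3 : ℝ) : ℂ) + (((j : ℝ) + 1 / 3 : ℝ) : ℂ) * om := by
  simp only [pv, fc, ctr]; push_cast; ring

lemma pv_dn (i j : ℤ) : pv (i, j, true) =
    (((i : ℝ) + 2 / 3 : ℝ) : ℂ) + (((j : ℝ) + 2 / 3 : ℝ) : ℂ) * om := by
  simp only [pv, fc, ctr]; push_cast; ring

lemma ext_coord {z w : ℂ} (h1 : cx z = cx w) (h2 : cy z = cy w) : z = w := by
  rw [← coord z, ← coord w, h1, h2]

lemma pv_inj {v w : Vx} (h : pv v = pv w) : v = w := by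
  obtain ⟨i, j, b⟩ := v
  obtain ⟨i', j', b'⟩ := w
  have h1 : cx (pv (i, j, b)) = cx (pv (i', j', b')) := by rw [h]
  have h2 : cy (pv (i, j, b)) = cy (pv (i', j', b')) := by rw [h]
  cases b <;> cases b'
  · rw [pv_up, pv_up, cx_comb, cx_comb] at h1
    rw [pv_up, pv_up, cy_comb, cy_comb] at h2
    have e1 : (i : ℝ) = i' := by linarith
    have e2 : (j : ℝ) = j' := by linarith
    rw [Int.cast_inj] at e1 e2
    rw [e1, e2]
  · rw [pv_up, pv_dn, cx_comb, cx_comb] at h1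
    exfalso
    have : (3 * i + 1 : ℝ) = 3 * i' + 2 := by linarith
    have : (3 * i + 1 : ℤ) = 3 * i' + 2 := by exact_mod_cast this
    omega
  · rw [pv_up, pv_dn, cx_comb, cx_comb] at h1
    exfalso
    have : (3 * i + 2 : ℝ) = 3 * i' + 1 := by linarith
    have : (3 * i + 2 : ℤ) = 3 * i' + 1 := by exact_mod_cast this
    omega
  · rw [pv_dn, pv_dn, cx_comb, cx_comb] at h1
    rw [pv_dn, pv_dn, cy_comb, cy_comb] at h2
    have e1 : (i : ℝ) = i' := by linarith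
    have e2 : (j : ℝ) = j' := by linarith
    rw [Int.cast_inj] at e1 e2
    rw [e1, e2]

lemma seg_coord {a b z : ℂ} (hz : z ∈ segment ℝ a b) : ∃ t ∈ Icc (0 : ℝ) 1,
    cx z = cx a + t * (cx b - cx a) ∧ cy z = cy a + t * (cy b - cy a) := by
  rw [segment_eq_image_lineMap] at hz
  obtain ⟨t, ht, rfl⟩ := hz
  refine ⟨t, ht, ?_, ?_⟩
  · rw [AffineMap.lineMap_apply_module]
    simp only [cx, Complex.add_re, Complex.add_im, Complex.smul_re, Complex.smul_im, smul_eq_mul]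
    ring
  · rw [AffineMap.lineMap_apply_module]
    simp only [cy, Complex.add_im, Complex.smul_im, smul_eq_mul]
    ring

lemma sg0 {i j : ℤ} {z : ℂ} (hz : z ∈ sg (i, j, 0)) :
    2 * cx z + cy z = 2 * i + j + 1 ∧ (j : ℝ) - 1 / 3 ≤ cy z ∧ cy z ≤ j + 1 / 3 := by
  obtain ⟨t, ht, h1, h2⟩ := seg_coord hz
  have e1 : pv (uv (i, j, 0)) = _ := pv_up i j
  have e2 : pv (nb (uv (i, j, 0)) 0) = _ := pv_dn i (j - 1)
  change cx z = cx (pv (uv (i, j, 0))) + t * (cx (pv (nb (uv (i, j, 0)) 0)) - _) at h1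
  change cy z = cy (pv (uv (i, j, 0))) + t * (cy (pv (nb (uv (i, j, 0)) 0)) - _) at h2
  rw [e1, e2, cx_comb, cx_comb] at h1
  rw [e1, e2, cy_comb, cy_comb] at h2
  push_cast at h1 h2
  refine ⟨by rw [h1, h2]; ring, ?_, ?_⟩ <;> nlinarith [ht.1, ht.2]

lemma sg1 {i j : ℤ} {z : ℂ} (hz : z ∈ sg (i, j, 1)) :
    cy z - cx z = j - i ∧ (i : ℝ) + 1 / 3 ≤ cx z ∧ cx z ≤ i + 2 / 3 := by
  obtain ⟨t, ht, h1, h2⟩ := seg_coord hz
  have e1 : pv (uv (i, j, 1)) = _ := pv_up i j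
  have e2 : pv (nb (uv (i, j, 1)) 1) = _ := pv_dn i j
  change cx z = cx (pv (uv (i, j, 1))) + t * (cx (pv (nb (uv (i, j, 1)) 1)) - _) at h1
  change cy z = cy (pv (uv (i, j, 1))) + t * (cy (pv (nb (uv (i, j, 1)) 1)) - _) at h2
  rw [e1, e2, cx_comb, cx_comb] at h1
  rw [e1, e2, cy_comb, cy_comb] at h2
  refine ⟨by rw [h1, h2]; ring, ?_, ?_⟩ <;> nlinarith [ht.1, ht.2]

lemma sg2 {i j : ℤ} {z : ℂ} (hz : z ∈ sg (i, j, 2)) :
    cx z + 2 * cy z = i + 2 * j + 1 ∧ (i : ℝ) - 1 / 3 ≤ cx z ∧ cx z ≤ i + 1 / 3 := by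
  obtain ⟨t, ht, h1, h2⟩ := seg_coord hz
  have e1 : pv (uv (i, j, 2)) = _ := pv_up i j
  have e2 : pv (nb (uv (i, j, 2)) 2) = _ := pv_dn (i - 1) j
  change cx z = cx (pv (uv (i, j, 2))) + t * (cx (pv (nb (uv (i, j, 2)) 2)) - _) at h1
  change cy z = cy (pv (uv (i, j, 2))) + t * (cy (pv (nb (uv (i, j, 2)) 2)) - _) at h2
  rw [e1, e2, cx_comb, cx_comb] at h1
  rw [e1, e2, cy_comb, cy_comb] at h2
  push_cast at h1 h2
  refine ⟨by rw [h1, h2]; ring, ?_, ?_⟩ <;> nlinarith [ht.1, ht.2]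

/-- two edges have a common end point at `z` -/
def Common (e e' : Ed) (z : ℂ) : Prop :=
  ∃ v : Vx, z = pv v ∧ (∃ k, ed v k = e) ∧ (∃ k, ed v k = e')

lemma Common.symm {e e' : Ed} {z : ℂ} (h : Common e e' z) : Common e' e z := by
  obtain ⟨v, h1, h2, h3⟩ := h
  exact ⟨v, h1, h3, h2⟩

lemma inter01 {i j i' j' : ℤ} {z : ℂ} (h : z ∈ sg (i, j, 0)) (h' : z ∈ sg (i', j', 1)) :
    Common (i, j, 0) (i', j', 1) z := by
  obtain ⟨a1, a2, a3⟩ := sg0 h
  obtain ⟨b1, b2, b3⟩ := sg1 h'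
  have hx : 3 * cx z = ((2 * i + j + 1 - j' + i' : ℤ) : ℝ) := by push_cast; linarith
  have hy : 3 * cy z = ((2 * i + j + 1 + 2 * j' - 2 * i' : ℤ) : ℝ) := by push_cast; linarith
  set m : ℤ := 2 * i + j + 1 - j' + i' with hm
  set l : ℤ := 2 * i + j + 1 + 2 * j' - 2 * i' with hl
  have c1 : 3 * j - 1 ≤ l := by
    have : ((3 * j - 1 : ℤ) : ℝ) ≤ l := by push_cast; linarith
    exact_mod_cast this
  have c2 : l ≤ 3 * j + 1 := by
    have : (l : ℝ) ≤ ((3 * j + 1 : ℤ) : ℝ) := by push_cast; linarith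
    exact_mod_cast this
  have c3 : 3 * i' + 1 ≤ m := by
    have : ((3 * i' + 1 : ℤ) : ℝ) ≤ m := by push_cast; linarith
    exact_mod_cast this
  have c4 : m ≤ 3 * i' + 2 := by
    have : (m : ℝ) ≤ ((3 * i' + 2 : ℤ) : ℝ) := by push_cast; linarith
    exact_mod_cast this
  have : (i' = i ∧ j' = j ∧ m = 3 * i + 1 ∧ l = 3 * j + 1) ∨
      (i' = i ∧ j' = j - 1 ∧ m = 3 * i + 2 ∧ l = 3 * j - 1) := by omega
  rcases this with ⟨rfl, rfl, e3, e4⟩ | ⟨rfl, rfl, e3, e4⟩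
  · refine ⟨(i', j', false), ?_, ⟨0, rfl⟩, ⟨1, rfl⟩⟩
    rw [e3] at hx
    rw [e4] at hy
    push_cast at hx hy
    apply ext_coord
    · rw [pv_up, cx_comb]; linarith
    · rw [pv_up, cy_comb]; linarith
  · refine ⟨(i', j - 1, true), ?_, ⟨0, by simp [ed]⟩, ⟨1, rfl⟩⟩
    rw [e3] at hx
    rw [e4] at hy
    push_cast at hx hy
    apply ext_coord
    · rw [pv_dn, cx_comb]; linarith
    · rw [pv_dn, cy_comb]; push_cast; linarith

lemma inter02 {i j i' j' : ℤ} {z : ℂ} (h : z ∈ sg (i, j, 0)) (h' : z ∈ sg (i', j', 2)) :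
    Common (i, j, 0) (i', j', 2) z := by
  obtain ⟨a1, a2, a3⟩ := sg0 h
  obtain ⟨b1, b2, b3⟩ := sg2 h'
  have hx : 3 * cx z = ((2 * (2 * i + j + 1) - (i' + 2 * j' + 1) : ℤ) : ℝ) := by
    push_cast; linarith
  have hy : 3 * cy z = ((2 * (i' + 2 * j' + 1) - (2 * i + j + 1) : ℤ) : ℝ) := by
    push_cast; linarith
  set m : ℤ := 2 * (2 * i + j + 1) - (i' + 2 * j' + 1) with hm
  set l : ℤ := 2 * (i' + 2 * j' + 1) - (2 * i + j + 1) with hl
  have c1 : 3 * j - 1 ≤ l := by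
    have : ((3 * j - 1 : ℤ) : ℝ) ≤ l := by push_cast; linarith
    exact_mod_cast this
  have c2 : l ≤ 3 * j + 1 := by
    have : (l : ℝ) ≤ ((3 * j + 1 : ℤ) : ℝ) := by push_cast; linarith
    exact_mod_cast this
  have c3 : 3 * i' - 1 ≤ m := by
    have : ((3 * i' - 1 : ℤ) : ℝ) ≤ m := by push_cast; linarith
    exact_mod_cast this
  have c4 : m ≤ 3 * i' + 1 := by
    have : (m : ℝ) ≤ ((3 * i' + 1 : ℤ) : ℝ) := by push_cast; linarith
    exact_mod_cast this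
  have : (i' = i ∧ j' = j ∧ m = 3 * i + 1 ∧ l = 3 * j + 1) ∨
      (i' = i + 1 ∧ j' = j - 1 ∧ m = 3 * i + 2 ∧ l = 3 * j - 1) := by omega
  rcases this with ⟨rfl, rfl, e3, e4⟩ | ⟨rfl, rfl, e3, e4⟩
  · refine ⟨(i', j', false), ?_, ⟨0, rfl⟩, ⟨2, rfl⟩⟩
    rw [e3] at hx
    rw [e4] at hy
    push_cast at hx hy
    apply ext_coord
    · rw [pv_up, cx_comb]; linarith
    · rw [pv_up, cy_comb]; linarith
  · refine ⟨(i, j - 1, true), ?_, ⟨0, by simp [ed]⟩, ⟨2, rfl⟩⟩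
    rw [e3] at hx
    rw [e4] at hy
    push_cast at hx hy
    apply ext_coord
    · rw [pv_dn, cx_comb]; linarith
    · rw [pv_dn, cy_comb]; push_cast; linarith

lemma inter12 {i j i' j' : ℤ} {z : ℂ} (h : z ∈ sg (i, j, 1)) (h' : z ∈ sg (i', j', 2)) :
    Common (i, j, 1) (i', j', 2) z := by
  obtain ⟨a1, a2, a3⟩ := sg1 h
  obtain ⟨b1, b2, b3⟩ := sg2 h'
  have hx : 3 * cx z = ((i' + 2 * j' + 1 - 2 * (j - i) : ℤ) : ℝ) := by
    push_cast; linarith
  have hy : 3 * cy z = ((i' + 2 * j' + 1 + (j - i) : ℤ) : ℝ) := by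
    push_cast; linarith
  set m : ℤ := i' + 2 * j' + 1 - 2 * (j - i) with hm
  set l : ℤ := i' + 2 * j' + 1 + (j - i) with hl
  have c1 : 3 * i + 1 ≤ m := by
    have : ((3 * i + 1 : ℤ) : ℝ) ≤ m := by push_cast; linarith
    exact_mod_cast this
  have c2 : m ≤ 3 * i + 2 := by
    have : (m : ℝ) ≤ ((3 * i + 2 : ℤ) : ℝ) := by push_cast; linarith
    exact_mod_cast this
  have c3 : 3 * i' - 1 ≤ m := by
    have : ((3 * i' - 1 : ℤ) : ℝ) ≤ m := by push_cast; linarith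
    exact_mod_cast this
  have c4 : m ≤ 3 * i' + 1 := by
    have : (m : ℝ) ≤ ((3 * i' + 1 : ℤ) : ℝ) := by push_cast; linarith
    exact_mod_cast this
  have : (i' = i ∧ j' = j ∧ m = 3 * i + 1 ∧ l = 3 * j + 1) ∨
      (i' = i + 1 ∧ j' = j ∧ m = 3 * i + 2 ∧ l = 3 * j + 2) := by omega
  rcases this with ⟨rfl, rfl, e3, e4⟩ | ⟨rfl, rfl, e3, e4⟩
  · refine ⟨(i', j', false), ?_, ⟨1, rfl⟩, ⟨2, rfl⟩⟩
    rw [e3] at hx
    rw [e4] at hy
    push_cast at hx hy
    apply ext_coord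
    · rw [pv_up, cx_comb]; linarith
    · rw [pv_up, cy_comb]; linarith
  · refine ⟨(i, j', true), ?_, ⟨1, rfl⟩, ⟨2, rfl⟩⟩
    rw [e3] at hx
    rw [e4] at hy
    push_cast at hx hy
    apply ext_coord
    · rw [pv_dn, cx_comb]; linarith
    · rw [pv_dn, cy_comb]; linarith

/-- two edges meet only in a common vertex -/
lemma sg_inter {e e' : Ed} {z : ℂ} (h : z ∈ sg e) (h' : z ∈ sg e') (hne : e ≠ e') :
    Common e e' z := by
  obtain ⟨i, j, k⟩ := e
  obtain ⟨i', j', k'⟩ := e'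
  have fin : ∀ a b : ℤ, (a : ℝ) - 1 < b → (b : ℝ) < a + 1 → a = b := by
    intro a b h1 h2
    have h3 : a - 1 < b := by
      have : ((a - 1 : ℤ) : ℝ) < b := by push_cast; exact h1
      exact_mod_cast this
    have h4 : b < a + 1 := by
      have : (b : ℝ) < ((a + 1 : ℤ) : ℝ) := by push_cast; exact h2
      exact_mod_cast this
    omega
  fin_cases k <;> fin_cases k' <;> simp only [Fin.zero_eta, Fin.mk_one, Fin.reduceFinMk] at h h' hne ⊢
  · exfalso
    obtain ⟨a1, a2, a3⟩ := sg0 h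
    obtain ⟨b1, b2, b3⟩ := sg0 h'
    have hj : j = j' := fin j j' (by linarith) (by linarith)
    subst hj
    have hi : i = i' := fin i i' (by linarith) (by linarith)
    exact hne (by rw [hi])
  · exact inter01 h h'
  · exact inter02 h h'
  · exact (inter01 h' h).symm
  · exfalso
    obtain ⟨a1, a2, a3⟩ := sg1 h
    obtain ⟨b1, b2, b3⟩ := sg1 h'
    have hi : i = i' := fin i i' (by linarith) (by linarith)
    subst hi
    have hj : j = j' := fin j j' (by linarith) (by linarith)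
    exact hne (by rw [hj])
  · exact inter12 h h'
  · exact (inter02 h' h).symm
  · exact (inter12 h' h).symm
  · exfalso
    obtain ⟨a1, a2, a3⟩ := sg2 h
    obtain ⟨b1, b2, b3⟩ := sg2 h'
    have hi : i = i' := fin i i' (by linarith) (by linarith)
    subst hi
    have hj : j = j' := fin j j' (by linarith) (by linarith)
    exact hne (by rw [hj])

lemma sg_closed (e : Ed) : IsClosed (sg e) := by
  rw [sg, segment_eq_image_lineMap]
  exact (isCompact_Icc.image AffineMap.lineMap_continuous).isClosed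

lemma pv_mem_sg {v : Vx} {k : Fin 3} : pv v ∈ sg (ed v k) := by
  rw [sg_ed]; exact left_mem_segment _ _ _

lemma mid_mem_sg (v : Vx) (k : Fin 3) : mid v k ∈ sg (ed v k) := by
  rw [sg_ed]
  have e : mid v k = (1 / 2 : ℝ) • pv v + (1 / 2 : ℝ) • pv (nb v k) := by
    obtain ⟨i, j, b⟩ := v
    rw [Complex.real_smul, Complex.real_smul]
    fin_cases k <;> cases b <;> simp [mid, pv, fc, nb, ctr] <;> ring
  exact ⟨1 / 2, 1 / 2, by norm_num, by norm_num, by norm_num, e.symm⟩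

lemma sg_sub_cell (v : Vx) (k : Fin 3) :
    sg (ed v k) ⊆ cell (fc v (k + 1)) ∧ sg (ed v k) ⊆ cell (fc v (k + 2)) := by
  rw [sg_ed]
  constructor
  · apply (cell_convex _).segment_subset (pv_mem v _)
    rw [← fc_nb2 v k]; exact pv_mem _ _
  · apply (cell_convex _).segment_subset (pv_mem v _)
    rw [← fc_nb1 v k]; exact pv_mem _ _

lemma sg_lf (e : Ed) : sg e ⊆ cell (lf e) ∧ sg e ⊆ cell (rf e) := by
  have := sg_sub_cell (uv e) e.2.2
  rw [ed_uv] at this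
  exact this

section Marks

variable {U : Finset Fc} (M : Marks U 3)

/-- union of the edges of the arc `C j` -/
noncomputable def AA (j : Fin 3) : Set ℂ := ⋃ e ∈ M.C j, sg e

lemma AA_closed (j : Fin 3) : IsClosed (AA M j) :=
  (M.C j).finite_toSet.isClosed_biUnion (fun e _ => sg_closed e)

lemma mem_AA {j : Fin 3} {z : ℂ} : z ∈ AA M j ↔ ∃ e ∈ M.C j, z ∈ sg e := by
  simp [AA]

lemma ind_val {α : Type*} (s : Set α) (a : α) : (a ∈ s → ind s a = 1) ∧ (a ∉ s → ind s a = 0) := by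
  constructor <;> intro h <;> simp [ind, h]

lemma isB_iff (v : Vx) (k : Fin 3) :
    isB U (ed v k) ↔ (fc v (k + 1) ∈ U ∧ fc v (k + 2) ∉ U) ∨ (fc v (k + 1) ∉ U ∧ fc v (k + 2) ∈ U) := by
  rcases faces_ed v k with ⟨-, h1, h2⟩ | ⟨-, h1, h2⟩
  · rw [isB, h1, h2]
  · rw [isB, h1, h2]; tauto

/-- if two arcs meet at the vertex `v` then `v` is an end of the first one -/
lemma end_of_two {v : Vx} {i j : Fin 3} (hij : i ≠ j) {k k' : Fin 3} (h : ed v k ∈ M.C i)
    (h' : ed v k' ∈ M.C j) : v = M.u i ∨ v = M.u (i + 1) := by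
  have hB : isB U (ed v k) := (M.mem _).2 ⟨i, h⟩
  have hB' : isB U (ed v k') := (M.mem _).2 ⟨j, h'⟩
  have hdis : ∀ e, e ∈ M.C i → e ∉ M.C j := fun e he he' =>
    Finset.disjoint_left.1 (M.disj i j hij) he he'
  have hkk : k ≠ k' := by
    rintro rfl; exact hdis _ h h'
  -- the third edge is not a boundary edge
  have h3 : ∀ l, l ≠ k → l ≠ k' → ed v l ∉ M.C i := by
    intro l hl hl' hmem
    have hB3 : isB U (ed v l) := (M.mem _).2 ⟨i, hmem⟩
    rw [isB_iff] at hB hB' hB3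
    have e0 : ∀ m : Fin 3, fc v m ∈ U ∨ fc v m ∉ U := fun m => em _
    revert hB hB' hB3 hl hl' hkk
    clear hmem h h' hdis
    have r1 : (0 : Fin 3) + 1 = 1 := rfl
    have r2 : (0 : Fin 3) + 2 = 2 := rfl
    have r3 : (1 : Fin 3) + 1 = 2 := rfl
    have r4 : (1 : Fin 3) + 2 = 0 := rfl
    have r5 : (2 : Fin 3) + 1 = 0 := rfl
    have r6 : (2 : Fin 3) + 2 = 1 := rfl
    fin_cases k <;> fin_cases k' <;> fin_cases l <;>
      simp only [Fin.zero_eta, Fin.mk_one, Fin.reduceFinMk, r1, r2, r3, r4, r5, r6, ne_eq,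
        not_true_eq_false, IsEmpty.forall_iff, not_false_eq_true, forall_const, Fin.reduceEq,
        implies_true] <;> tauto
  have hdv := M.dvC i v
  have hval : dv (ind (↑(M.C i) : Set Ed)) v = 1 := by
    have v1 : ind (↑(M.C i) : Set Ed) (ed v k) = 1 := (ind_val _ _).1 (by exact_mod_cast h)
    have v2 : ind (↑(M.C i) : Set Ed) (ed v k') = 0 := (ind_val _ _).2 (by
      intro hm
      exact hdis _ (by exact_mod_cast hm) h')
    have v3 : ∀ l, l ≠ k → l ≠ k' → ind (↑(M.C i) : Set Ed) (ed v l) = 0 := fun l hl hl' =>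
      (ind_val _ _).2 (by
        intro hm
        exact h3 l hl hl' (by exact_mod_cast hm))
    rw [dv]
    fin_cases k <;> fin_cases k' <;>
      simp only [Fin.zero_eta, Fin.mk_one, Fin.reduceFinMk, ne_eq, not_true_eq_false] at v1 v2 v3 hkk
    · rw [v1, v2, v3 2 (by decide) (by decide)]; rfl
    · rw [v1, v2, v3 1 (by decide) (by decide)]; rfl
    · rw [v1, v2, v3 2 (by decide) (by decide)]; rfl
    · rw [v1, v2, v3 0 (by decide) (by decide)]; rfl
    · rw [v1, v2, v3 1 (by decide) (by decide)]; rfl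
    · rw [v1, v2, v3 0 (by decide) (by decide)]; rfl
  rw [hval] at hdv
  by_contra hcon
  rw [not_or] at hcon
  have z1 : ind {M.u i} v = 0 := (ind_val _ _).2 (by simpa using hcon.1)
  have z2 : ind {M.u (i + 1)} v = 0 := (ind_val _ _).2 (by simpa using hcon.2)
  rw [z1, z2, add_zero] at hdv
  exact one_ne_zero hdv

lemma AA_inter {i j : Fin 3} (hij : i ≠ j) {z : ℂ} (h : z ∈ AA M i) (h' : z ∈ AA M j) :
    z = pv (M.u i) ∨ z = pv (M.u (i + 1)) := by
  obtain ⟨e, he, hz⟩ := (mem_AA M).1 h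
  obtain ⟨e', he', hz'⟩ := (mem_AA M).1 h'
  have hne : e ≠ e' := by
    rintro rfl
    exact Finset.disjoint_left.1 (M.disj i j hij) he he'
  obtain ⟨v, hv, ⟨k, hk⟩, ⟨k', hk'⟩⟩ := sg_inter hz hz' hne
  rw [← hk] at he
  rw [← hk'] at he'
  rcases end_of_two M hij he he' with h1 | h1
  · left; rw [hv, h1]
  · right; rw [hv, h1]

lemma mark_mem (j : Fin 3) : pv (M.u j) ∈ AA M j := by
  obtain ⟨k, -, -, -, hk⟩ := M.out j
  exact (mem_AA M).2 ⟨_, hk, pv_mem_sg⟩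

lemma mark_notMem (j : Fin 3) : pv (M.u j) ∉ AA M (j + 1) := by
  intro h
  have hij : j + 1 ≠ j := by fin_cases j <;> decide
  rcases AA_inter M hij h (mark_mem M j) with h1 | h1
  · exact hij (M.inj (pv_inj h1)).symm
  · have := M.inj (pv_inj h1)
    revert this
    fin_cases j <;> decide

end Marks

section Chart

variable {U : Finset Fc} {M : Marks U 3} {φ : ℂ → ℂ} {p : Fin 3 → ℂ}

lemma frontier_eq_AA (hA : frontier (reg U) =
    ⋃ v : Vx, ⋃ k : Fin 3, ⋃ _ : isB U (ed v k), segment ℝ (pv v) (pv (nb v k))) {z : ℂ}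
    (hz : z ∈ frontier (reg U)) : ∃ j, z ∈ AA M j := by
  rw [hA] at hz
  simp only [mem_iUnion, exists_prop] at hz
  obtain ⟨v, k, hB, hz⟩ := hz
  obtain ⟨j, hj⟩ := (M.mem _).1 hB
  exact ⟨j, (mem_AA M).2 ⟨_, hj, by rwa [sg_ed]⟩⟩

lemma AA_sub_frontier (hA : frontier (reg U) =
    ⋃ v : Vx, ⋃ k : Fin 3, ⋃ _ : isB U (ed v k), segment ℝ (pv v) (pv (nb v k))) {z : ℂ} {j : Fin 3}
    (hz : z ∈ AA M j) : z ∈ frontier (reg U) := by
  obtain ⟨e, he, hz⟩ := (mem_AA M).1 hz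
  rw [hA]
  simp only [mem_iUnion, exists_prop]
  refine ⟨uv e, e.2.2, ?_, hz⟩
  rw [ed_uv]
  exact (M.mem _).2 ⟨j, he⟩

/-- **The arcs correspond.** -/
theorem arc_sub (hch : DiscChart (reg U) φ) (hm : ∀ j, ‖p j‖ = 1 ∧ φ (p j) = pv (M.u j))
    (hp : Function.Injective p)
    (hA : frontier (reg U) =
      ⋃ v : Vx, ⋃ k : Fin 3, ⋃ _ : isB U (ed v k), segment ℝ (pv v) (pv (nb v k)))
    (l : Fin 3) {q : ℂ} (hq : q ∈ arc p l) : φ q ∈ AA M l := by
  have hm1 : ∀ j, ‖p j‖ = 1 := fun j => (hm j).1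
  have hclosed : ∀ j, IsClosed (closedBall (0 : ℂ) 1 ∩ φ ⁻¹' AA M j) := fun j =>
    hch.cont.preimage_isClosed_of_isClosed isClosed_closedBall (AA_closed M j)
  have hcirc : ∀ x, ‖x‖ = 1 → x ∈ closedBall (0 : ℂ) 1 := fun x hx => by
    rw [mem_closedBall_zero_iff, hx]
  have hcov : ∀ x, ‖x‖ = 1 → ∃ j, φ x ∈ AA M j := fun x hx =>
    frontier_eq_AA hA ((chart_circle hch isOpen_interior hx.le).2 hx)
  have hmark : ∀ x, ‖x‖ = 1 → ∀ i j, i ≠ j → φ x ∈ AA M i → φ x ∈ AA M j → x ∈ range p := by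
    intro x hx i j hij h1 h2
    rcases AA_inter M hij h1 h2 with h3 | h3
    · exact ⟨i, (hch.inj (hcirc _ hx) (hcirc _ (hm1 i)) (by rw [h3, (hm i).2])).symm⟩
    · exact ⟨i + 1, (hch.inj (hcirc _ hx) (hcirc _ (hm1 (i + 1))) (by rw [h3, (hm (i + 1)).2])).symm⟩
  obtain ⟨i, hi⟩ := hcov q hq.1
  -- the whole arc lies in the preimage of `AA i`
  have hall : arc p l ⊆ closedBall (0 : ℂ) 1 ∩ φ ⁻¹' AA M i := by
    intro x hx
    obtain ⟨i', hi'⟩ := hcov x hx.1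
    by_cases hii : i' = i
    · subst hii
      exact ⟨hcirc x hx.1, hi'⟩
    exfalso
    have hpc := arc_preconn hm1 hp l
    rw [isPreconnected_closed_iff] at hpc
    have hclU : IsClosed (⋃ j ∈ ({i}ᶜ : Set (Fin 3)), closedBall (0 : ℂ) 1 ∩ φ ⁻¹' AA M j) :=
      (toFinite _).isClosed_biUnion (fun j _ => hclosed j)
    obtain ⟨y, hy, hy1, hy2⟩ := hpc _ _ (hclosed i) hclU
      (by
        intro y hy
        obtain ⟨j, hj⟩ := hcov y hy.1
        by_cases hji : j = i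
        · left; subst hji; exact ⟨hcirc y hy.1, hj⟩
        · right
          simp only [mem_iUnion, exists_prop]
          exact ⟨j, hji, hcirc y hy.1, hj⟩)
      ⟨q, hq, hcirc q hq.1, hi⟩
      ⟨x, hx, by
        simp only [mem_iUnion, exists_prop]
        exact ⟨i', hii, hcirc x hx.1, hi'⟩⟩
    simp only [mem_iUnion, exists_prop] at hy2
    obtain ⟨j, hji, -, hyj⟩ := hy2
    exact arc_notMem_range hp hy (hmark y hy.1 i j (Ne.symm hji) hy1.2 hyj)
  have hcl := closure_minimal hall (hclosed i)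
  obtain ⟨h1, h2⟩ := arc_closure hm1 hp l
  have h3 : φ (p l) ∈ AA M i := (hcl h1).2
  have h4 : φ (p (l + 1)) ∈ AA M i := (hcl h2).2
  rw [(hm _).2] at h3 h4
  have n1 : i ≠ l + 1 := by
    rintro rfl
    exact mark_notMem M l h3
  have n2 : i ≠ l + 2 := by
    rintro rfl
    have e : l + 2 = l + 1 + 1 := by fin_cases l <;> rfl
    rw [e] at h4
    exact mark_notMem M (l + 1) h4
  have : i = l := by
    revert n1 n2
    fin_cases i <;> fin_cases l <;> decide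
  rw [← this]
  exact hi

/-- converse -/
theorem mem_arc (hch : DiscChart (reg U) φ) (hm : ∀ j, ‖p j‖ = 1 ∧ φ (p j) = pv (M.u j))
    (hp : Function.Injective p)
    (hA : frontier (reg U) =
      ⋃ v : Vx, ⋃ k : Fin 3, ⋃ _ : isB U (ed v k), segment ℝ (pv v) (pv (nb v k)))
    (l : Fin 3) {q : ℂ} (hq : ‖q‖ ≤ 1) (hqm : ∀ j, q ≠ p j) (hql : φ q ∈ AA M l) : q ∈ arc p l := by
  have hq1 : ‖q‖ = 1 := (chart_circle hch isOpen_interior hq).1 (AA_sub_frontier hA hql)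
  obtain ⟨i, hi⟩ := exists_arc (fun j => (hm j).1) hp hq1 hqm
  by_cases hil : i = l
  · rw [← hil]; exact hi
  exfalso
  have h2 := arc_sub hch hm hp hA i hi
  rcases AA_inter M hil h2 hql with h3 | h3
  · exact hqm i (hch.inj (by simpa using hq) (by simp [(hm i).1]) (by rw [h3, (hm i).2]))
  · exact hqm (i + 1) (hch.inj (by simpa using hq) (by simp [(hm (i + 1)).1])
      (by rw [h3, (hm (i + 1)).2]))

end Chart

end Pool.Agent.H21.UC
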