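import Pool.Agent.H21.UC.Holo
import Pool.Agent.H69.UC.G2
import Pool.Agent.H11.UC.A1
import Pool.Agent.H13.Q1.FourH

set_option autoImplicit false

/-!
# A34 from A2, A4 and the discrete identities
-/

namespace Pool.Agent.H21.UC

open Pool.Agent.H7.UC Metric Set Filter Topology ComplexConjugate
open Pool.Agent.H75.Perc Pool.Agent.H13.Q1.Four

lemma g2 : G2 := by
  intro s hs
  obtain ⟨A, -, hA⟩ := Pool.Agent.H69.UC.G2 hs
  refine ⟨A, fun Dm φ z R h1 h2 h3 _ ⟨b, hb, hbR⟩ w hw => ?_⟩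
  rw [← dist_eq_norm]
  refine hA Dm φ z b R h1 h2 h3 hb ?_ w hw
  rw [dist_comm, dist_eq_norm]
  exact hbR

lemma crossR_ne {a b c q : ℂ} (ha : ‖a‖ = 1) (hb : ‖b‖ = 1) (hc : ‖c‖ = 1) (hq : ‖q‖ = 1)
    (hab : a ≠ b) (hbc : b ≠ c) (hca : c ≠ a) (hqa : q ≠ a) (hqb : q ≠ b) (hqc : q ≠ c) :
    (crossR a q b c).re ≠ 0 ∧ (crossR a q b c).re ≠ 1 := by
  have r0 := crossR_real ha hb hc hq
  have e1 : c - b ≠ 0 := sub_ne_zero.2 hbc.symm
  have e2 : c - a ≠ 0 := sub_ne_zero.2 hca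
  have e3 : b - a ≠ 0 := sub_ne_zero.2 hab.symm
  have e4 : c - q ≠ 0 := sub_ne_zero.2 hqc.symm
  have e5 : q - a ≠ 0 := sub_ne_zero.2 hqa
  have e6 : b - q ≠ 0 := sub_ne_zero.2 hqb.symm
  constructor
  · intro h
    rw [h, Complex.ofReal_zero, crossR] at r0
    exact (div_ne_zero (mul_ne_zero e5 e1) (mul_ne_zero e3 e4)) r0.symm
  · intro h
    have h5 := one_sub_crossR (q := q) (c := c) hab hqc
    rw [← r0, h, Complex.ofReal_one, sub_self] at h5
    exact (div_ne_zero (mul_ne_zero e6 e2) (mul_ne_zero e3 e4)) h5.symm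

theorem a34 (h1c : D1c) (h3a : D3a) (h3b : D3b) (h3c : D3c) (h4a : D4a) (hA2 : A2) (hA4 : A4) :
    A34 := by
  intro ε hε κ hκ
  by_contra hcon
  push Not at hcon
  choose U M z R φ p hs hR v k q he hq hφ hfar c hc hlt using (fun n : ℕ => hcon (n + 1))
  have hA1 : A1 := Pool.Agent.H11.UC.a1
  have hop : ∀ n, IsClosed (reg (U n))ᶜ := fun n => isOpen_interior.isClosed_compl
  have hne : ∀ n, ((reg (U n))ᶜ).Nonempty := by
    intro n
    by_contra h
    rw [not_nonempty_iff_eq_empty, compl_empty_iff] at h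
    have := Pool.Agent.H11.UC.isBounded_reg (U n)
    rw [h] at this
    exact NormedSpace.unbounded_univ ℝ ℂ this
  set R' : ℕ → ℝ := fun n => infDist (z n) (reg (U n))ᶜ with hR'
  have hRR : ∀ n, R n ≤ R' n := by
    intro n
    simp only [hR']
    rw [le_infDist (hne n)]
    intro b hb
    by_contra hlt'
    rw [not_le, dist_comm] at hlt'
    exact hb ((hs n).inner hlt')
  have hinner : ∀ n, ball (z n) (R' n) ⊆ reg (U n) := by
    intro n w hw
    by_contra hwU
    have : R' n ≤ dist (z n) w := infDist_le_dist_of_mem hwU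
    rw [mem_ball, dist_comm] at hw
    linarith
  let S : Sq :=
    { U := U, M := M, z := z, R := R', κ := κ, φ := φ, p := p, hκ := hκ
      sit := fun n => ⟨(hs n).dom, hinner n, (hs n).chart, (hs n).zero, (hs n).mark, (hs n).sep⟩
      big := fun n => (hR n).trans (hRR n) }
  have hdist : ∀ n, ∃ b, b ∉ reg (S.U n) ∧ ‖b - S.z n‖ = S.R n := by
    intro n
    obtain ⟨y, hy, hyd⟩ := (hop n).exists_infDist_eq_dist (hne n) (z n)
    refine ⟨y, hy, ?_⟩
    change ‖y - z n‖ = R' n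
    rw [← dist_eq_norm, dist_comm]
    exact hyd.symm
  obtain ⟨P, hP, hP1, hPi⟩ := S.exists_marks
  have hLD : LimData P (S.F h1c) :=
    { mark := hP1
      inj := hPi
      cont := fun j => S.F_cont h1c hA2 hP j
      nonneg := fun j q _ => (S.F_mem h1c j q).1
      sum := fun q hq => S.F_sum h1c hP h3c hq
      holo := S.F_holo h1c hA2 h3a h3b g2 hdist hP hP1
      bdry := fun j q hq => S.F_bdry h1c hA2 hA1 h4a hP hPi hq }
  -- the limit point
  obtain ⟨q', hq'1, hq'⟩ := Sq.exists_lim (isCompact_closedBall (0 : ℂ) 1) (u := q)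
    (Eventually.of_forall fun n => by rw [mem_closedBall_zero_iff]; exact hq n)
  have hfar' : ∀ j, κ ≤ ‖q' - P j‖ := fun j =>
    ge_of_tendsto ((hq'.sub (hP j)).norm) (Eventually.of_forall fun n => hfar n j)
  have hq'P : ∀ j, q' ≠ P j := by
    intro j h
    have := hfar' j
    rw [h, sub_self, norm_zero] at this
    exact absurd hκ (not_lt.2 this)
  have hq'm : q' ∉ range P := by
    rintro ⟨j, hj⟩
    exact hq'P j hj.symm
  -- the points lie on the arc `0`
  have hqarc : ∀ n, q n ∈ arc (p n) 0 := by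
    intro n
    refine mem_arc (hs n).chart (hs n).mark (S.inj_p n) (hA1 (U n) (hs n).dom).2 0 (hq n) ?_ ?_
    · intro j h
      have := hfar n j
      rw [h, sub_self, norm_zero] at this
      exact absurd hκ (not_lt.2 this)
    · rw [hφ n]
      exact (mem_AA _).2 ⟨_, he n, mid_mem_sg _ _⟩
  have hn1 : ∀ n, ‖q n‖ = 1 := fun n => (hqarc n).1
  have hq'n : ‖q'‖ = 1 :=
    tendsto_nhds_unique hq'.norm (tendsto_const_nhds.congr fun n => (hn1 n).symm)
  obtain ⟨g1, g2', g3⟩ := ne3 hPi 0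
  have ht : Tendsto (fun n => (crossR (p n 0) (q n) (p n 1) (p n 2)).re) UF
      (𝓝 (crossR (P 0) q' (P 1) (P 2)).re) := by
    apply (Complex.continuous_re.tendsto _).comp
    unfold crossR
    apply Tendsto.div
    · exact (hq'.sub (hP 0)).mul ((hP 2).sub (hP 1))
    · exact ((hP 1).sub (hP 0)).mul ((hP 2).sub hq')
    · exact mul_ne_zero (sub_ne_zero.2 g1.symm) (sub_ne_zero.2 (hq'P 2).symm)
  have htI : ∀ n, (crossR (p n 0) (q n) (p n 1) (p n 2)).re ∈ Icc (0 : ℝ) 1 := fun n =>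
    ⟨(hqarc n).2.1.le, (hqarc n).2.2.le⟩
  have htI' : (crossR (P 0) q' (P 1) (P 2)).re ∈ Icc (0 : ℝ) 1 :=
    isClosed_Icc.mem_of_tendsto ht (Eventually.of_forall htI)
  have hne' := crossR_ne (hP1 0) (hP1 1) (hP1 2) hq'n g1 g2' g3 (hq'P 0) (hq'P 1) (hq'P 2)
  have hq'arc : q' ∈ arc P 0 :=
    ⟨hq'n, lt_of_le_of_ne htI'.1 (Ne.symm hne'.1), lt_of_le_of_ne htI'.2 hne'.2⟩
  have hA := hA4 P (S.F h1c) hLD q' hq'arc
  have hE : ∀ n, inE (S.U n) (ed (v n) (k n)) := by
    intro n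
    have := ((M n).mem _).2 ⟨0, he n⟩
    rcases this with h | h
    · exact Or.inl h.1
    · exact Or.inr h.2
  have hX : Tendsto (fun n => X (M n) (c n) (v n) (k n) 1) UF (𝓝 (S.F h1c 1 q')) :=
    S.lim_val h1c hA2 hP (v := v) (k := k) (q := q) (Eventually.of_forall hE)
      (Eventually.of_forall hq) (Eventually.of_forall hφ) hq' hq'm 1 (Eventually.of_forall hc)
  have hcar : Tendsto (fun n => cardy (crossR (p n 0) (q n) (p n 1) (p n 2)).re) UF
      (𝓝 (cardy (crossR (P 0) q' (P 1) (P 2)).re)) := by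
    have h1 : ContinuousWithinAt cardy (Icc 0 1) (crossR (P 0) q' (P 1) (P 2)).re :=
      cardy_cont _ htI'
    exact h1.tendsto.comp (tendsto_nhdsWithin_iff.2 ⟨ht, Eventually.of_forall htI⟩)
  have h0 := (hX.sub hcar).abs
  rw [hA, sub_self, abs_zero] at h0
  have h1 : ε ≤ 0 := ge_of_tendsto h0 (Eventually.of_forall fun n => (hlt n).le)
  linarith

end Pool.Agent.H21.UC
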