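import Pool.Agent.H21.UC.Lim

set_option autoImplicit false

/-!
# Arcs of the unit circle through the cross ratio
-/

namespace Pool.Agent.H21.UC

open Pool.Agent.H7.UC Metric Set Filter Topology ComplexConjugate

/-- parametrisation of the circle through `a` (`t = 0`), `b` (`t = 1`), `c` (`t = ∞`) -/
noncomputable def mob (a b c : ℂ) (t : ℂ) : ℂ :=
  (a * (c - b) + t * (c * (b - a))) / ((c - b) + t * (b - a))

lemma conj_inv {a : ℂ} (ha : ‖a‖ = 1) : conj a = a⁻¹ := by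
  have h0 : a ≠ 0 := by
    intro h; rw [h, norm_zero] at ha; exact zero_ne_one ha
  have h1 : a * conj a = 1 := by
    rw [Complex.mul_conj, Complex.normSq_eq_norm_sq, ha]; simp
  field_simp
  rw [mul_comm]; exact h1

lemma ne_zero_of {a : ℂ} (ha : ‖a‖ = 1) : a ≠ 0 := by
  intro h; rw [h, norm_zero] at ha; exact zero_ne_one ha

lemma den_ne {a b c : ℂ} (ha : ‖a‖ = 1) (hb : ‖b‖ = 1) (hc : ‖c‖ = 1) (hab : a ≠ b)
    (hbc : b ≠ c) (hca : c ≠ a) (t : ℝ) : (c - b) + (t : ℂ) * (b - a) ≠ 0 := by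
  intro h
  have ha0 := ne_zero_of ha
  have hb0 := ne_zero_of hb
  have hc0 := ne_zero_of hc
  have h2 : conj ((c - b) + (t : ℂ) * (b - a)) = 0 := by rw [h, map_zero]
  simp only [map_add, map_sub, map_mul, Complex.conj_ofReal, conj_inv ha, conj_inv hb,
    conj_inv hc] at h2
  have h3 : a * (b - c) + (t : ℂ) * c * (a - b) = 0 := by
    have : a * (b - c) + (t : ℂ) * c * (a - b) = a * b * c * (c⁻¹ - b⁻¹ + t * (b⁻¹ - a⁻¹)) := by
      field_simp
    rw [this, h2, mul_zero]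
  have h4 : (b - c) * (a - c) = 0 := by
    linear_combination h3 + c * h
  rcases mul_eq_zero.1 h4 with h5 | h5
  · exact hbc (sub_eq_zero.1 h5)
  · exact hca (sub_eq_zero.1 h5).symm

lemma mob_norm {a b c : ℂ} (ha : ‖a‖ = 1) (hb : ‖b‖ = 1) (hc : ‖c‖ = 1) (hab : a ≠ b)
    (hbc : b ≠ c) (hca : c ≠ a) (t : ℝ) : ‖mob a b c t‖ = 1 := by
  have ha0 := ne_zero_of ha
  have hb0 := ne_zero_of hb
  have hc0 := ne_zero_of hc
  have hd := den_ne ha hb hc hab hbc hca t
  have h1 : mob a b c t * conj (mob a b c t) = 1 := by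
    have hd2 : conj ((c - b) + (t : ℂ) * (b - a)) ≠ 0 := by
      intro h
      apply hd
      rw [← Complex.conj_conj ((c - b) + (t : ℂ) * (b - a)), h, map_zero]
    rw [mob, map_div₀, div_mul_div_comm, div_eq_one_iff_eq (mul_ne_zero hd hd2)]
    simp only [map_add, map_sub, map_mul, Complex.conj_ofReal, conj_inv ha, conj_inv hb,
      conj_inv hc]
    field_simp
    ring
  rw [Complex.mul_conj, Complex.normSq_eq_norm_sq] at h1
  have h2 : ‖mob a b c t‖ ^ 2 = 1 := by exact_mod_cast h1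
  rw [← sq_eq_sq₀ (norm_nonneg _) zero_le_one, h2, one_pow]

lemma crossR_mob {a b c : ℂ} (ha : ‖a‖ = 1) (hb : ‖b‖ = 1) (hc : ‖c‖ = 1) (hab : a ≠ b)
    (hbc : b ≠ c) (hca : c ≠ a) (t : ℝ) : crossR a (mob a b c t) b c = t := by
  have hd := den_ne ha hb hc hab hbc hca t
  have h1 : mob a b c t - a = t * (b - a) * (c - a) / ((c - b) + (t : ℂ) * (b - a)) := by
    rw [mob]; field_simp; ring
  have h2 : c - mob a b c t = (c - b) * (c - a) / ((c - b) + (t : ℂ) * (b - a)) := by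
    rw [mob]; field_simp; ring
  have e1 : c - b ≠ 0 := sub_ne_zero.2 hbc.symm
  have e2 : c - a ≠ 0 := sub_ne_zero.2 hca
  have e3 : b - a ≠ 0 := sub_ne_zero.2 hab.symm
  rw [crossR, h1, h2]
  field_simp

lemma mob_crossR {a b c q : ℂ} (hab : a ≠ b) (hbc : b ≠ c) (hca : c ≠ a) (hq : q ≠ c) :
    mob a b c (crossR a q b c) = q := by
  have e1 : c - b ≠ 0 := sub_ne_zero.2 hbc.symm
  have e2 : c - a ≠ 0 := sub_ne_zero.2 hca
  have e3 : b - a ≠ 0 := sub_ne_zero.2 hab.symm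
  have e4 : c - q ≠ 0 := sub_ne_zero.2 hq.symm
  have h1 : (c - b) + crossR a q b c * (b - a) = (c - b) * (c - a) / (c - q) := by
    rw [crossR]; field_simp; ring
  have h2 : a * (c - b) + crossR a q b c * (c * (b - a)) = q * ((c - b) * (c - a) / (c - q)) := by
    rw [crossR]; field_simp; ring
  rw [mob, h1, h2, mul_div_assoc, div_self (by positivity), mul_one]

lemma crossR_real {a b c q : ℂ} (ha : ‖a‖ = 1) (hb : ‖b‖ = 1) (hc : ‖c‖ = 1) (hq : ‖q‖ = 1) :
    ((crossR a q b c).re : ℂ) = crossR a q b c := by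
  rw [← Complex.conj_eq_iff_re, crossR]
  have ha0 := ne_zero_of ha
  have hb0 := ne_zero_of hb
  have hc0 := ne_zero_of hc
  have hq0 := ne_zero_of hq
  simp only [map_div₀, map_sub, map_mul, conj_inv ha, conj_inv hb, conj_inv hc, conj_inv hq]
  have e : ∀ x y : ℂ, x ≠ 0 → y ≠ 0 → x⁻¹ - y⁻¹ = -(x - y) / (x * y) := by
    intro x y hx hy
    field_simp
    ring
  rw [e q a hq0 ha0, e c b hc0 hb0, e b a hb0 ha0, e c q hc0 hq0]
  rcases eq_or_ne ((b - a) * (c - q)) 0 with h | h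
  · rw [show -(b - a) / (b * a) * (-(c - q) / (c * q)) = (b - a) * (c - q) / (b * a * (c * q)) by
      field_simp, h]
    simp
  · have h1 : b - a ≠ 0 := left_ne_zero_of_mul h
    have h2 : c - q ≠ 0 := right_ne_zero_of_mul h
    field_simp

lemma one_sub_crossR {a b c q : ℂ} (hab : a ≠ b) (hq : q ≠ c) :
    1 - crossR a q b c = (b - q) * (c - a) / ((b - a) * (c - q)) := by
  have e3 : b - a ≠ 0 := sub_ne_zero.2 hab.symm
  have e4 : c - q ≠ 0 := sub_ne_zero.2 hq.symm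
  rw [crossR]
  field_simp
  ring

/-- rotation of the three points -/
lemma crossR_rot {a b c q : ℂ} (hab : a ≠ b) (hbc : b ≠ c) (hqa : q ≠ a) (hqc : q ≠ c) :
    crossR b q c a = (crossR a q b c - 1) / crossR a q b c := by
  have e1 : c - b ≠ 0 := sub_ne_zero.2 hbc.symm
  have e3 : b - a ≠ 0 := sub_ne_zero.2 hab.symm
  have e4 : c - q ≠ 0 := sub_ne_zero.2 hqc.symm
  have e5 : a - q ≠ 0 := sub_ne_zero.2 hqa.symm
  have e6 : q - a ≠ 0 := sub_ne_zero.2 hqa
  rw [crossR, crossR]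
  field_simp
  ring

section Arc

variable {p : Fin 3 → ℂ}

lemma ne3 (hp : Function.Injective p) (j : Fin 3) :
    p j ≠ p (j + 1) ∧ p (j + 1) ≠ p (j + 2) ∧ p (j + 2) ≠ p j := by
  refine ⟨fun h => ?_, fun h => ?_, fun h => ?_⟩ <;>
  · have := hp h
    revert this
    fin_cases j <;> decide

lemma arc_ne (hp : Function.Injective p) {j : Fin 3} {q : ℂ} (hq : q ∈ arc p j) :
    q ≠ p j ∧ q ≠ p (j + 1) ∧ q ≠ p (j + 2) := by
  obtain ⟨h1, h2, h3⟩ := ne3 hp j
  obtain ⟨-, h4, h5⟩ := hq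
  refine ⟨?_, ?_, ?_⟩
  · rintro rfl
    simp [crossR] at h4
  · rintro rfl
    have e1 : p (j + 2) - p (j + 1) ≠ 0 := sub_ne_zero.2 h2.symm
    have e3 : p (j + 1) - p j ≠ 0 := sub_ne_zero.2 h1.symm
    have : crossR (p j) (p (j + 1)) (p (j + 1)) (p (j + 2)) = 1 := by
      rw [crossR, div_self (mul_ne_zero e3 e1)]
    rw [this] at h5
    simp at h5
  · rintro rfl
    simp [crossR] at h4

lemma arc_notMem_range (hp : Function.Injective p) {j : Fin 3} {q : ℂ} (hq : q ∈ arc p j) :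
    q ∉ range p := by
  obtain ⟨h1, h2, h3⟩ := arc_ne hp hq
  rintro ⟨l, rfl⟩
  have : l = j ∨ l = j + 1 ∨ l = j + 2 := by
    fin_cases j <;> fin_cases l <;> decide
  rcases this with rfl | rfl | rfl
  · exact h1 rfl
  · exact h2 rfl
  · exact h3 rfl

lemma arc_eq (hm : ∀ j, ‖p j‖ = 1) (hp : Function.Injective p) (j : Fin 3) :
    arc p j = (fun t : ℝ => mob (p j) (p (j + 1)) (p (j + 2)) t) '' Ioo 0 1 := by
  obtain ⟨h1, h2, h3⟩ := ne3 hp j
  ext q
  constructor
  · intro hq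
    refine ⟨_, ⟨hq.2.1, hq.2.2⟩, ?_⟩
    change mob (p j) (p (j + 1)) (p (j + 2)) _ = q
    rw [crossR_real (hm _) (hm _) (hm _) hq.1]
    exact mob_crossR h1 h2 h3 (arc_ne hp hq).2.2
  · rintro ⟨t, ht, rfl⟩
    refine ⟨mob_norm (hm _) (hm _) (hm _) h1 h2 h3 t, ?_, ?_⟩
    · change 0 < (crossR (p j) (mob (p j) (p (j + 1)) (p (j + 2)) t) (p (j + 1)) (p (j + 2))).re
      rw [crossR_mob (hm _) (hm _) (hm _) h1 h2 h3]
      exact ht.1
    · change (crossR (p j) (mob (p j) (p (j + 1)) (p (j + 2)) t) (p (j + 1)) (p (j + 2))).re < 1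
      rw [crossR_mob (hm _) (hm _) (hm _) h1 h2 h3]
      exact ht.2

lemma mob_cont {a b c : ℂ} (ha : ‖a‖ = 1) (hb : ‖b‖ = 1) (hc : ‖c‖ = 1) (hab : a ≠ b)
    (hbc : b ≠ c) (hca : c ≠ a) : Continuous (fun t : ℝ => mob a b c t) := by
  unfold mob
  exact Continuous.div (by fun_prop) (by fun_prop) (den_ne ha hb hc hab hbc hca)

lemma arc_preconn (hm : ∀ j, ‖p j‖ = 1) (hp : Function.Injective p) (j : Fin 3) :
    IsPreconnected (arc p j) := by
  obtain ⟨h1, h2, h3⟩ := ne3 hp j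
  rw [arc_eq hm hp]
  exact isPreconnected_Ioo.image _ (mob_cont (hm _) (hm _) (hm _) h1 h2 h3).continuousOn

lemma arc_closure (hm : ∀ j, ‖p j‖ = 1) (hp : Function.Injective p) (j : Fin 3) :
    p j ∈ closure (arc p j) ∧ p (j + 1) ∈ closure (arc p j) := by
  obtain ⟨h1, h2, h3⟩ := ne3 hp j
  have hc := mob_cont (hm _) (hm _) (hm _) h1 h2 h3
  have key : ∀ t ∈ Icc (0 : ℝ) 1, mob (p j) (p (j + 1)) (p (j + 2)) t ∈ closure (arc p j) := by
    intro t ht
    rw [arc_eq hm hp]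
    rw [← closure_Ioo (zero_ne_one' ℝ)] at ht
    exact image_closure_subset_closure_image hc ⟨t, ht, rfl⟩
  constructor
  · have := key 0 ⟨le_refl _, zero_le_one⟩
    have e1 : p (j + 2) - p (j + 1) ≠ 0 := sub_ne_zero.2 h2.symm
    rw [mob, Complex.ofReal_zero, zero_mul, zero_mul, add_zero, add_zero, mul_div_assoc,
      div_self e1, mul_one] at this
    exact this
  · have := key 1 ⟨zero_le_one, le_refl _⟩
    have e1 : p (j + 2) - p j ≠ 0 := sub_ne_zero.2 h3
    have e : mob (p j) (p (j + 1)) (p (j + 2)) ((1 : ℝ) : ℂ) = p (j + 1) := by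
      rw [mob, Complex.ofReal_one]
      have : p (j + 2) - p (j + 1) + 1 * (p (j + 1) - p j) = p (j + 2) - p j := by ring
      rw [this, div_eq_iff e1]
      ring
    rw [e] at this
    exact this

/-- every point of the circle which is not a mark lies in one of the arcs -/
lemma exists_arc (hm : ∀ j, ‖p j‖ = 1) (hp : Function.Injective p) {q : ℂ} (hq : ‖q‖ = 1)
    (hqm : ∀ j, q ≠ p j) : ∃ j, q ∈ arc p j := by
  obtain ⟨h1, h2, h3⟩ := ne3 hp 0
  obtain ⟨h1', h2', h3'⟩ := ne3 hp 1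
  obtain ⟨h1'', h2'', h3''⟩ := ne3 hp 2
  have r0 := crossR_real (a := p 0) (b := p 1) (c := p 2) (hm _) (hm _) (hm _) hq
  have r1 := crossR_real (a := p 1) (b := p 2) (c := p 0) (hm _) (hm _) (hm _) hq
  have r2 := crossR_real (a := p 2) (b := p 0) (c := p 1) (hm _) (hm _) (hm _) hq
  set t0 := (crossR (p 0) q (p 1) (p 2)).re with ht0
  set t1 := (crossR (p 1) q (p 2) (p 0)).re with ht1
  set t2 := (crossR (p 2) q (p 0) (p 1)).re with ht2
  have s1 : t1 = (t0 - 1) / t0 := by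
    have := crossR_rot (a := p 0) (b := p 1) (c := p 2) (q := q) h1 h2 (hqm 0) (hqm 2)
    rw [← r0, ← r1] at this
    exact_mod_cast this
  have s2 : t2 = (t1 - 1) / t1 := by
    have := crossR_rot (a := p 1) (b := p 2) (c := p 0) (q := q) h1' h2' (hqm 1) (hqm 0)
    rw [← r1, ← r2] at this
    exact_mod_cast this
  have n0 : t0 ≠ 0 := by
    intro h
    rw [h] at r0
    have : q = p 0 := by
      have h5 := mob_crossR (a := p 0) (b := p 1) (c := p 2) (q := q) h1 h2 h3 (hqm 2)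
      rw [← r0] at h5
      have e1 : p 2 - p 1 ≠ 0 := sub_ne_zero.2 h2.symm
      rw [mob, Complex.ofReal_zero, zero_mul, zero_mul, add_zero, add_zero, mul_div_assoc,
        div_self e1, mul_one] at h5
      exact h5.symm
    exact hqm 0 this
  have n1 : t0 ≠ 1 := by
    intro h
    rw [h] at r0
    have h5 := one_sub_crossR (a := p 0) (b := p 1) (c := p 2) (q := q) h1 (hqm 2)
    rw [← r0] at h5
    simp only [Complex.ofReal_one, sub_self] at h5
    have e1 : p 1 - q ≠ 0 := sub_ne_zero.2 (hqm 1).symm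
    have e2 : p 2 - p 0 ≠ 0 := sub_ne_zero.2 h3
    have e3 : p 1 - p 0 ≠ 0 := sub_ne_zero.2 h1.symm
    have e4 : p 2 - q ≠ 0 := sub_ne_zero.2 (hqm 2).symm
    exact (div_ne_zero (mul_ne_zero e1 e2) (mul_ne_zero e3 e4)) h5.symm
  rcases lt_trichotomy t0 0 with h | h | h
  · -- third arc
    refine ⟨2, hq, ?_⟩
    have e1 : t1 = 1 + 1 / (-t0) := by rw [s1]; field_simp; ring
    have p1 : 0 < 1 / (-t0) := by
      apply div_pos one_pos; linarith
    have h1t : 1 < t1 := by rw [e1]; linarith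
    have e2 : t2 = 1 - 1 / t1 := by rw [s2]; field_simp
    have p2 : 1 / t1 < 1 := by rw [div_lt_one (by linarith)]; exact h1t
    have p3 : 0 < 1 / t1 := by positivity
    change 0 < t2 ∧ t2 < 1
    rw [e2]
    constructor <;> linarith
  · exact absurd h n0
  · rcases lt_or_gt_of_ne n1 with h' | h'
    · exact ⟨0, hq, h, h'⟩
    · refine ⟨1, hq, ?_⟩
      have e1 : t1 = 1 - 1 / t0 := by rw [s1]; field_simp
      have p2 : 1 / t0 < 1 := by rw [div_lt_one (by linarith)]; exact h'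
      have p3 : 0 < 1 / t0 := by positivity
      change 0 < t1 ∧ t1 < 1
      rw [e1]
      constructor <;> linarith

end Arc

end Pool.Agent.H21.UC
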