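import Pool.Agent.H7.UC.IfaceA

set_option autoImplicit false

/-! Statement of G2 (upper estimate of the chart on compact subsets of the disc). -/

namespace Pool.Agent.H21.UC

open Pool.Agent.H7.UC Metric Set

/-- G2: if `R` is the distance of `z = φ 0` to the complement then `‖φ w - z‖ ≤ A(s) R` for
`‖w‖ ≤ s < 1`. -/
def G2 : Prop := ∀ s : ℝ, s < 1 → ∃ A : ℝ, ∀ (Dm : Set ℂ) (φ : ℂ → ℂ) (z : ℂ) (R : ℝ),
  DiscChart Dm φ → φ 0 = z → 0 < R → ball z R ⊆ Dm → (∃ b, b ∉ Dm ∧ ‖b - z‖ = R) →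
  ∀ w, ‖w‖ ≤ s → ‖φ w - z‖ ≤ A * R

end Pool.Agent.H21.UC
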