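import Pool.Agent.H21.UC.Seq
import Pool.Agent.H21.UC.G2Def
import Pool.Agent.H83.Lo.Montel

set_option autoImplicit false

/-!
# The limit observable is holomorphic
-/

namespace Pool.Agent.H21.UC

open Pool.Agent.H7.UC Metric Set Filter Topology ComplexConjugate
open Pool.Agent.H75.Perc

lemma tau_norm : ‖tau‖ = 1 := by
  rw [tau, show (2 * Real.pi * Complex.I / 3 : ℂ) = ((2 * Real.pi / 3 : ℝ) : ℂ) * Complex.I by
    push_cast; ring, Complex.norm_exp_ofReal_mul_I]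

/-- middle of an edge -/
noncomputable def MM (e : Ed) : ℂ := mid (uv e) e.2.2

lemma MM_near (e : Ed) : ‖MM e - ctr (e.1, e.2.1)‖ ≤ 1 := by
  have h0 : ∀ x : ℂ, ‖x‖ ≤ 2 → ‖x / 2‖ ≤ 1 := by
    intro x hx
    rw [norm_div, show ‖(2 : ℂ)‖ = 2 by simp]
    linarith
  obtain ⟨i, j, k⟩ := e
  have h1 : ‖(1 : ℂ)‖ ≤ 2 := by simp
  have h2 : ‖om‖ ≤ 2 := by rw [om_norm]; norm_num
  have h3 : ‖(1 : ℂ) + om‖ ≤ 2 := by
    refine (norm_add_le _ _).trans ?_
    rw [om_norm]; simp; norm_num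
  have e1 : ∃ x : ℂ, ‖x‖ ≤ 2 ∧ MM (i, j, k) - ctr (i, j) = x / 2 := by
    fin_cases k
    · refine ⟨1, h1, ?_⟩
      simp [MM, mid, uv, fc, ctr]; ring
    · refine ⟨1 + om, h3, ?_⟩
      simp [MM, mid, uv, fc, ctr]; ring
    · refine ⟨om, h2, ?_⟩
      simp [MM, mid, uv, fc, ctr]; ring
  obtain ⟨x, hx, hx2⟩ := e1
  change ‖MM (i, j, k) - ctr (i, j)‖ ≤ 1
  rw [hx2]
  exact h0 x hx

lemma norm_comb_le (x y : ℝ) : ‖(x : ℂ) + y * om‖ ≤ |x| + |y| := by
  refine (norm_add_le _ _).trans ?_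
  rw [norm_mul, om_norm, mul_one, Complex.norm_real, Complex.norm_real, Real.norm_eq_abs,
    Real.norm_eq_abs]

lemma ctr_sub_le (f : Fc) (Z : ℂ) : ‖ctr f - Z‖ ≤ |(f.1 : ℝ) - cx Z| + |(f.2 : ℝ) - cy Z| := by
  have : ctr f - Z = (((f.1 : ℝ) - cx Z : ℝ) : ℂ) + (((f.2 : ℝ) - cy Z : ℝ) : ℂ) * om := by
    have := coord Z
    rw [ctr]
    push_cast
    linear_combination this
  rw [this]
  exact norm_comb_le _ _

lemma floor_abs (x : ℝ) : |((⌊x⌋ : ℤ) : ℝ) - x| ≤ 1 := by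
  rw [abs_le]
  constructor
  · linarith [Int.lt_floor_add_one x]
  · linarith [Int.floor_le x]

lemma lf_near (e : Ed) : ‖ctr (lf e) - ctr (e.1, e.2.1)‖ ≤ 1 ∧
    ‖ctr (rf e) - ctr (e.1, e.2.1)‖ ≤ 1 := by
  obtain ⟨i, j, k⟩ := e
  fin_cases k <;> constructor <;> simp [lf, rf, fc, ctr, add_mul, om_norm]

namespace Sq

variable (S : Sq) (h1c : D1c)

/-- observable at an edge -/
noncomputable def O (n : ℕ) (e : Ed) : ℂ :=
  ∑ j : Fin 3, tau ^ (j : ℕ) * (S.Val h1c n (uv e) e.2.2 j : ℂ)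

lemma O_norm (n : ℕ) (e : Ed) : ‖S.O h1c n e‖ ≤ 3 := by
  rw [O]
  refine (norm_sum_le _ _).trans ?_
  have : ∀ j ∈ (Finset.univ : Finset (Fin 3)),
      ‖tau ^ (j : ℕ) * (S.Val h1c n (uv e) e.2.2 j : ℂ)‖ ≤ 1 := by
    intro j _
    obtain ⟨h1, h2⟩ := S.Val_mem h1c n (uv e) e.2.2 j
    rw [norm_mul, norm_pow, tau_norm, one_pow, one_mul, Complex.norm_real,
      Real.norm_of_nonneg h1]
    exact h2
  refine (Finset.sum_le_card_nsmul _ _ 1 this).trans ?_
  simp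

lemma not_mark {n : ℕ} {v : Vx} (h : ∀ k, fc v k ∈ S.U n) (j : Fin 3) : v ≠ (S.M n).u j := by
  rintro rfl
  obtain ⟨k, -, h2, -, -⟩ := (S.M n).out j
  exact h2 (h _)

lemma obs_id (h3b : D3b) {n : ℕ} {v : Vx} (h : ∀ k, fc v k ∈ S.U n) :
    ∑ k : Fin 3, tau ^ (k : ℕ) * obs (S.M n) (S.cref h1c n v) v k = 0 :=
  h3b (S.U n) (S.M n) (S.sit n).dom v (fun k => (inE_iff _ _ _).2 (Or.inl (h _)))
    (S.not_mark h) _ (S.cref_spec h1c ⟨0, h 0⟩)

lemma up_id (h3b : D3b) {n : ℕ} {i j : ℤ} (h0 : (i, j) ∈ S.U n) (h1 : (i + 1, j) ∈ S.U n)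
    (h2 : (i, j + 1) ∈ S.U n) :
    S.O h1c n (i, j, 0) + tau * S.O h1c n (i, j, 1) + tau ^ 2 * S.O h1c n (i, j, 2) = 0 := by
  have := S.obs_id h1c h3b (n := n) (v := (i, j, false)) (by
    intro k; fin_cases k
    · exact h2
    · exact h0
    · exact h1)
  rw [Fin.sum_univ_three] at this
  simp only [Fin.val_zero, Fin.val_one, Fin.val_two, pow_zero, one_mul, pow_one] at this
  exact this

lemma dn_id (h3b : D3b) (h3a : D3a) {n : ℕ} {i j : ℤ} (h0 : (i + 1, j) ∈ S.U n)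
    (h1 : (i + 1, j + 1) ∈ S.U n) (h2 : (i, j + 1) ∈ S.U n) :
    S.O h1c n (i, j + 1, 0) + tau * S.O h1c n (i, j, 1) + tau ^ 2 * S.O h1c n (i + 1, j, 2) = 0 := by
  have hf : ∀ k, fc (i, j, true) k ∈ S.U n := by
    intro k; fin_cases k
    · exact h0
    · exact h1
    · exact h2
  have hO : ∀ k, obs (S.M n) (S.cref h1c n (i, j, true)) (i, j, true) k =
      S.O h1c n (ed (i, j, true) k) := by
    intro k
    have hE : inE (S.U n) (ed (i, j, true) k) := (inE_iff _ _ _).2 (Or.inl (hf _))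
    have hE' : inE (S.U n) (ed (nb (i, j, true) k) k) := by rw [ed_nb]; exact hE
    have e1 : uv (ed (i, j, true) k) = nb (i, j, true) k := by
      fin_cases k <;> simp [ed, uv, nb]
    have e2 : (ed (i, j, true) k).2.2 = k := ed_dir _ _
    rw [obs, O]
    apply Finset.sum_congr rfl
    intro l _
    rw [e1, e2, Val, h3a (S.U n) (S.M n) (S.sit n).dom (i, j, true) k hE _ _
      (S.cref_spec h1c (inV_of_inE hE)) (S.cref_spec h1c (inV_of_inE hE')) l]
  have := S.obs_id h1c h3b (n := n) (v := (i, j, true)) hf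
  rw [Fin.sum_univ_three, hO, hO, hO] at this
  simp only [Fin.val_zero, Fin.val_one, Fin.val_two, pow_zero, one_mul, pow_one] at this
  exact this

lemma diff_id (h3b : D3b) (h3a : D3a) {n : ℕ} {i j : ℤ} (h0 : (i, j) ∈ S.U n)
    (h1 : (i + 1, j) ∈ S.U n) (h2 : (i, j + 1) ∈ S.U n) (h3 : (i + 1, j + 1) ∈ S.U n) :
    S.O h1c n (i, j, 0) - S.O h1c n (i, j + 1, 0) =
      om * (S.O h1c n (i, j, 2) - S.O h1c n (i + 1, j, 2)) := by
  have e1 := S.up_id h1c h3b h0 h1 h2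
  have e2 := S.dn_id h1c h3b h3a h1 h3 h2
  rw [tau_sq] at e1 e2
  linear_combination e1 - e2

/-! ### local estimates at an inner point -/

lemma ball_in {q0 : ℂ} (hq0 : ‖q0‖ < 1) : ∃ r > (0 : ℝ),
    (∀ n, ball (S.φ n q0) (r * S.R n) ⊆ reg (S.U n)) ∧
    ∀ n q, ‖q‖ ≤ 1 → S.φ n q ∈ ball (S.φ n q0) (r * S.R n) → ‖q - q0‖ ≤ (1 - ‖q0‖) / 2 := by
  have hη : 0 < (1 - ‖q0‖) / 2 := by linarith
  obtain ⟨δ, hδ, h⟩ := S.near_set hη
  have h1 : ∀ n, ball (S.φ n q0) (δ / 2 * S.R n) ⊆ reg (S.U n) := by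
    intro n
    by_contra hcon
    rw [not_subset] at hcon
    obtain ⟨x, hx, hxU⟩ := hcon
    have hop : IsOpen (reg (S.U n)) := isOpen_interior
    have hq0U : S.φ n q0 ∈ reg (S.U n) := by
      rw [← (S.sit n).chart.img]
      exact ⟨q0, by simpa using hq0, rfl⟩
    obtain ⟨y, hy, hyd⟩ := hop.isClosed_compl.exists_infDist_eq_dist ⟨x, hxU⟩ (S.φ n q0)
    set d := infDist (S.φ n q0) (reg (S.U n))ᶜ with hd
    have hd0 : 0 < d := by
      rw [hyd, dist_pos]
      rintro h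
      exact hy (h ▸ hq0U)
    have hdlt : d < δ / 2 * S.R n := by
      refine lt_of_le_of_lt (infDist_le_dist_of_mem hxU) ?_
      rw [dist_comm]; exact hx
    have hsub : ball (S.φ n q0) d ⊆ reg (S.U n) := by
      intro w hw
      by_contra hwU
      have : d ≤ dist (S.φ n q0) w := infDist_le_dist_of_mem hwU
      rw [mem_ball, dist_comm] at hw
      linarith
    have hcl : closedBall (S.φ n q0) d ⊆ closure (reg (S.U n)) := by
      rw [← closure_ball _ hd0.ne']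
      exact closure_mono hsub
    have hyc : y ∈ closedBall (S.φ n q0) d := by
      rw [mem_closedBall, dist_comm, ← hyd]
    obtain ⟨b, hb, hby⟩ := chart_surj (S.sit n).chart (hcl hyc)
    have hfr : y ∈ frontier (reg (S.U n)) := by
      rw [hop.frontier_eq]
      exact ⟨hcl hyc, hy⟩
    rw [← hby] at hfr
    have hb1 := (chart_circle (S.sit n).chart hop hb).1 hfr
    have h3 := h n (closedBall (S.φ n q0) d) (convex_closedBall _ _).isPreconnected hcl
      (by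
        intro u hu w hw
        rw [← dist_eq_norm]
        have := dist_triangle_right u w (S.φ n q0)
        rw [mem_closedBall] at hu hw
        linarith)
      q0 b hq0.le hb (mem_closedBall_self hd0.le) (by rw [hby]; exact hyc)
    have h4 : ‖b‖ ≤ ‖q0‖ + ‖q0 - b‖ := by
      calc ‖b‖ = ‖q0 - (q0 - b)‖ := by congr 1; ring
        _ ≤ _ := norm_sub_le _ _
    rw [hb1] at h4
    linarith
  refine ⟨δ / 2, by positivity, h1, fun n q hq hqb => ?_⟩
  refine h n (ball (S.φ n q0) (δ / 2 * S.R n)) (convex_ball _ _).isPreconnected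
    ((h1 n).trans subset_closure) ?_ q q0 hq hq0.le hqb
    (mem_ball_self (by have := S.R_pos n; positivity))
  intro u hu w hw
  rw [← dist_eq_norm]
  have := dist_triangle_right u w (S.φ n q0)
  rw [mem_ball] at hu hw
  linarith

variable {q0 : ℂ} {r : ℝ}

lemma seg_near (hb : ∀ n, ball (S.φ n q0) (r * S.R n) ⊆ reg (S.U n)) {η : ℝ} (hη : 0 < η) :
    ∃ δ > (0 : ℝ), ∀ n a b, ‖a‖ ≤ 1 → ‖b‖ ≤ 1 → S.φ n a ∈ ball (S.φ n q0) (r * S.R n) →
    S.φ n b ∈ ball (S.φ n q0) (r * S.R n) → ‖S.φ n a - S.φ n b‖ ≤ δ * S.R n → ‖a - b‖ ≤ η := by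
  obtain ⟨δ, hδ, h⟩ := S.near_set hη
  refine ⟨δ / 2, by positivity, fun n a b ha hb1 hfa hfb hd => ?_⟩
  refine h n (segment ℝ (S.φ n a) (S.φ n b)) (convex_segment _ _).isPreconnected
    (((convex_ball _ _).segment_subset hfa hfb).trans ((hb n).trans subset_closure)) ?_ a b ha hb1
    (left_mem_segment _ _ _) (right_mem_segment _ _ _)
  intro x hx y hy
  have key : ∀ x ∈ segment ℝ (S.φ n a) (S.φ n b), ‖x - S.φ n a‖ ≤ ‖S.φ n a - S.φ n b‖ := by
    intro x hx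
    have := norm_sub_le_of_mem_segment hx
    rw [norm_sub_rev (S.φ n b)] at this
    exact this
  calc ‖x - y‖ = ‖(x - S.φ n a) - (y - S.φ n a)‖ := by congr 1; ring
    _ ≤ ‖x - S.φ n a‖ + ‖y - S.φ n a‖ := norm_sub_le _ _
    _ ≤ δ * S.R n := by linarith [key x hx, key y hy]

lemma mark_far {n : ℕ} {q : ℂ} (hq0 : ‖q0‖ < 1) (h : ‖q - q0‖ ≤ (1 - ‖q0‖) / 2) (j : Fin 3) :
    (1 - ‖q0‖) / 2 ≤ ‖q - S.p n j‖ := by
  have h1 := ((S.sit n).mark j).1
  have h2 : ‖S.p n j‖ ≤ ‖q0‖ + ‖q - q0‖ + ‖q - S.p n j‖ := by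
    calc ‖S.p n j‖ = ‖q0 + (q - q0) - (q - S.p n j)‖ := by congr 1; ring
      _ ≤ ‖q0 + (q - q0)‖ + ‖q - S.p n j‖ := norm_sub_le _ _
      _ ≤ _ := by
        gcongr
        exact norm_add_le _ _
  rw [h1] at h2
  linarith

/-- equicontinuity of the observable near `φ q0` -/
lemma O_close (hA2 : A2) (hq0 : ‖q0‖ < 1)
    (hb : ∀ n, ball (S.φ n q0) (r * S.R n) ⊆ reg (S.U n))
    (hb2 : ∀ n q, ‖q‖ ≤ 1 → S.φ n q ∈ ball (S.φ n q0) (r * S.R n) → ‖q - q0‖ ≤ (1 - ‖q0‖) / 2)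
    {η : ℝ} (hη : 0 < η) :
    ∃ δ > (0 : ℝ), ∀ᶠ n in (UF : Filter ℕ), ∀ e e' : Ed, inE (S.U n) e → inE (S.U n) e' →
    MM e ∈ ball (S.φ n q0) (r * S.R n) → MM e' ∈ ball (S.φ n q0) (r * S.R n) →
    ‖MM e - MM e'‖ ≤ δ * S.R n → ‖S.O h1c n e - S.O h1c n e'‖ ≤ η := by
  have hη0 : 0 < (1 - ‖q0‖) / 2 := by linarith
  obtain ⟨δ1, hδ1, hA⟩ := S.A2_seq hA2 (show 0 < η / 3 by positivity) hη0
  obtain ⟨δ2, hδ2, hN⟩ := S.seg_near hb hδ1
  refine ⟨δ2, hδ2, ?_⟩
  filter_upwards [hA] with n hn e e' hE hE' hm hm' hd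
  have hE1 : inE (S.U n) (ed (uv e) e.2.2) := by rw [ed_uv]; exact hE
  have hE2 : inE (S.U n) (ed (uv e') e'.2.2) := by rw [ed_uv]; exact hE'
  obtain ⟨a1, a2⟩ := S.pre_spec hE1
  obtain ⟨b1, b2⟩ := S.pre_spec hE2
  have hab := hN n _ _ a1 b1 (by rw [a2]; exact hm) (by rw [b2]; exact hm') (by
    rw [a2, b2]; exact hd)
  have hfar := S.mark_far (n := n) hq0 (hb2 n _ a1 (by rw [a2]; exact hm))
  have hX := fun j => hn (uv e) e.2.2 (uv e') e'.2.2 _ _ hE1 hE2 a1 b1 a2 b2 hab hfar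
    (S.cref h1c n (uv e)) (S.cref h1c n (uv e')) (S.cref_spec h1c (inV_of_inE hE1))
    (S.cref_spec h1c (inV_of_inE hE2)) j
  rw [O, O, ← Finset.sum_sub_distrib]
  refine (norm_sum_le _ _).trans ?_
  have : ∀ j ∈ (Finset.univ : Finset (Fin 3)),
      ‖tau ^ (j : ℕ) * (S.Val h1c n (uv e) e.2.2 j : ℂ) -
        tau ^ (j : ℕ) * (S.Val h1c n (uv e') e'.2.2 j : ℂ)‖ ≤ η / 3 := by
    intro j _
    rw [← mul_sub, norm_mul, norm_pow, tau_norm, one_pow, one_mul, ← Complex.ofReal_sub,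
      Complex.norm_real, Real.norm_eq_abs]
    exact hX j
  refine (Finset.sum_le_card_nsmul _ _ _ this).trans (le_of_eq ?_)
  simp
  ring

/-- the edge near `z + R w` -/
noncomputable def eG (n : ℕ) (w : ℂ) : Ed :=
  (⌊cx (S.z n + S.R n * w)⌋, ⌊cy (S.z n + S.R n * w)⌋, 0)

lemma exists_G (w : ℂ) : ∃ L ∈ closedBall (0 : ℂ) 3,
    Tendsto (fun n => S.O h1c n (S.eG n w)) UF (𝓝 L) :=
  exists_lim (isCompact_closedBall _ _) (Eventually.of_forall fun n => by
    rw [mem_closedBall_zero_iff]; exact S.O_norm h1c _ _)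

noncomputable def G (w : ℂ) : ℂ := (S.exists_G h1c w).choose

lemma G_lim (w : ℂ) : Tendsto (fun n => S.O h1c n (S.eG n w)) UF (𝓝 (S.G h1c w)) :=
  (S.exists_G h1c w).choose_spec.2

/-- faces `(i0 + a, j0 + b)` with `(i0, j0)` the face near `z + R β` -/
noncomputable def fb (n : ℕ) (β : ℂ) (a b : ℕ) : Fc :=
  (⌊cx (S.z n + S.R n * β)⌋ + a, ⌊cy (S.z n + S.R n * β)⌋ + b)

lemma fb_near (n : ℕ) (β : ℂ) (a b : ℕ) (x y : ℝ) :
    ‖ctr (S.fb n β a b) - (S.z n + S.R n * (β + (x + y * om)))‖ ≤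
      2 + (|a - S.R n * x| + |b - S.R n * y|) := by
  set Z := S.z n + S.R n * β with hZ
  have h1 := ctr_sub_le (⌊cx Z⌋, ⌊cy Z⌋) Z
  have h2 := floor_abs (cx Z)
  have h3 := floor_abs (cy Z)
  have h4 := norm_comb_le (a - S.R n * x) (b - S.R n * y)
  have e : ctr (S.fb n β a b) - (S.z n + S.R n * (β + (x + y * om))) =
      (ctr (⌊cx Z⌋, ⌊cy Z⌋) - Z) +
        (((a - S.R n * x : ℝ) : ℂ) + ((b - S.R n * y : ℝ) : ℂ) * om) := by
    simp only [fb, ctr, hZ]
    push_cast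
    ring
  rw [e]
  refine (norm_add_le _ _).trans ?_
  simp only at h1
  linarith

lemma eG_near (n : ℕ) (w : ℂ) : ‖ctr ((S.eG n w).1, (S.eG n w).2.1) - (S.z n + S.R n * w)‖ ≤ 2 := by
  have h1 := ctr_sub_le (⌊cx (S.z n + S.R n * w)⌋, ⌊cy (S.z n + S.R n * w)⌋) (S.z n + S.R n * w)
  have h2 := floor_abs (cx (S.z n + S.R n * w))
  have h3 := floor_abs (cy (S.z n + S.R n * w))
  simp only at h1
  change ‖ctr (⌊cx (S.z n + S.R n * w)⌋, ⌊cy (S.z n + S.R n * w)⌋) - _‖ ≤ 2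
  linarith

variable {P : Fin 3 → ℂ}

/-- **The limit observable is holomorphic.** -/
theorem F_holo (hA2 : A2) (h3a : D3a) (h3b : D3b) (hG2 : G2)
    (hdist : ∀ n, ∃ b, b ∉ reg (S.U n) ∧ ‖b - S.z n‖ = S.R n)
    (hP : ∀ j, Tendsto (fun n => S.p n j) UF (𝓝 (P j))) (hP1 : ∀ j, ‖P j‖ = 1) :
    DifferentiableOn ℂ (fun q => ∑ j : Fin 3, tau ^ (j : ℕ) * (S.F h1c j q : ℂ)) (ball 0 1) := by
  intro q0 hq0'
  have hq0 : ‖q0‖ < 1 := by simpa using hq0'
  apply DifferentiableAt.differentiableWithinAt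
  obtain ⟨r, hr, hb, hb2⟩ := S.ball_in hq0
  -- the limit of the charts near `q0`
  obtain ⟨A, hA⟩ := hG2 ((1 + ‖q0‖) / 2) (by linarith)
  set ψn : ℕ → ℂ → ℂ := fun n q => (S.φ n q - S.z n) / S.R n with hψn
  have hRc : ∀ n, (S.R n : ℂ) ≠ 0 := fun n => by exact_mod_cast (S.R_pos n).ne'
  have hφψ : ∀ n q, S.φ n q = S.z n + S.R n * ψn n q := by
    intro n q
    simp only [hψn]
    rw [mul_div_cancel₀ _ (hRc n)]
    ring
  have hs1 : ball (0 : ℂ) ((1 + ‖q0‖) / 2) ⊆ ball 0 1 := ball_subset_ball (by linarith)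
  obtain ⟨ψ, hψ1, hψ2, -⟩ := Pool.Agent.H83.Lo.montel UF (U := ball (0 : ℂ) ((1 + ‖q0‖) / 2))
    isOpen_ball (F := ψn) (M := A)
    (fun n => (((S.sit n).chart.diff.mono hs1).sub (differentiableOn_const _)).div_const _)
    (fun n q hq => by
      simp only [hψn]
      rw [norm_div, Complex.norm_real, Real.norm_of_nonneg (S.R_pos n).le,
        div_le_iff₀ (S.R_pos n)]
      exact hA _ _ _ _ (S.sit n).chart (S.sit n).zero (S.R_pos n) (S.sit n).inner (hdist n) q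
        (by simpa using (mem_ball_zero_iff.1 hq).le))
  have hq0s : q0 ∈ ball (0 : ℂ) ((1 + ‖q0‖) / 2) := by
    rw [mem_ball_zero_iff]; linarith
  have hψd : DifferentiableAt ℂ ψ q0 := hψ2.differentiableAt (isOpen_ball.mem_nhds hq0s)
  have hψpt : ∀ q ∈ ball (0 : ℂ) ((1 + ‖q0‖) / 2), Tendsto (fun n => ψn n q) UF (𝓝 (ψ q)) :=
    fun q hq => hψ1.tendsto_at hq
  set w0 := ψ q0 with hw0
  set s := r / 16 with hs
  have hs0 : 0 < s := by positivity
  set β : ℂ := w0 - ((s / 2 : ℝ) : ℂ) * (1 + om) with hβ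
  -- frequently used events
  have hE1 : ∀ᶠ n in (UF : Filter ℕ), ‖ψn n q0 - w0‖ < s := by
    filter_upwards [(hψpt q0 hq0s).eventually (ball_mem_nhds _ hs0)] with n hn
    rwa [← dist_eq_norm]
  have hE2 : ∀ᶠ n in (UF : Filter ℕ), 8 ≤ s * S.R n := by
    filter_upwards [S.R_tendsto.eventually_ge_atTop (8 / s)] with n hn
    rw [div_le_iff₀ hs0] at hn
    linarith
  -- points near `z + R w0` are in the ball
  have hin : ∀ᶠ n in (UF : Filter ℕ), ∀ x : ℂ, ‖x - (S.z n + S.R n * w0)‖ ≤ 3 * (s * S.R n) →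
      x ∈ ball (S.φ n q0) (r * S.R n) := by
    filter_upwards [hE1, hE2] with n h1 h2 x hx
    rw [mem_ball, dist_eq_norm, hφψ]
    have e : x - (S.z n + S.R n * ψn n q0) =
        (x - (S.z n + S.R n * w0)) - S.R n * (ψn n q0 - w0) := by ring
    rw [e]
    refine lt_of_le_of_lt (norm_sub_le _ _) ?_
    rw [norm_mul, Complex.norm_real, Real.norm_of_nonneg (S.R_pos n).le]
    have h3 : S.R n * ‖ψn n q0 - w0‖ ≤ S.R n * s :=
      mul_le_mul_of_nonneg_left h1.le (S.R_pos n).le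
    have h4 : r * S.R n = 16 * (s * S.R n) := by rw [hs]; ring
    rw [h4]
    linarith
  have hfU : ∀ᶠ n in (UF : Filter ℕ), ∀ f : Fc, ‖ctr f - (S.z n + S.R n * w0)‖ ≤ 3 * (s * S.R n) →
      f ∈ S.U n := by
    filter_upwards [hin] with n hn f hf
    exact mem_of_ctr (hb n (hn _ hf))
  -- faces and edges of the parallelogram
  have hpar : ∀ n, 8 ≤ s * S.R n → ∀ a b : ℕ, (a : ℝ) ≤ s * S.R n + 1 → (b : ℝ) ≤ s * S.R n + 1 →
      ‖ctr (S.fb n β a b) - (S.z n + S.R n * w0)‖ ≤ 2 * (s * S.R n) := by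
    intro n hn a b ha hb'
    have h1 := S.fb_near n β a b (s / 2) (s / 2)
    have e : β + (((s / 2 : ℝ) : ℂ) + ((s / 2 : ℝ) : ℂ) * om) = w0 := by
      rw [hβ]; ring
    rw [e] at h1
    have ha0 : (0 : ℝ) ≤ a := Nat.cast_nonneg a
    have hb0 : (0 : ℝ) ≤ b := Nat.cast_nonneg b
    have h2 : |(a : ℝ) - S.R n * (s / 2)| ≤ s * S.R n / 2 + 1 := by
      rw [abs_le]; constructor <;> linarith
    have h3 : |(b : ℝ) - S.R n * (s / 2)| ≤ s * S.R n / 2 + 1 := by
      rw [abs_le]; constructor <;> linarith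
    linarith
  -- apply the discrete Morera theorem
  have hMor : ∀ x ∈ Ioo 0 s, ∀ y ∈ Ioo 0 s,
      DifferentiableAt ℂ (S.G h1c) (β + (((x : ℝ) : ℂ) + ((y : ℝ) : ℂ) * om)) := by
    intro x hx y hy
    refine morera_lattice (𝒰 := UF) (R := S.R) (s := s) (β := β) (C := 3)
      (h := fun n a b => S.O h1c n ((S.fb n β a b).1, (S.fb n β a b).2, 0))
      (w := fun n a b => S.O h1c n ((S.fb n β a b).1, (S.fb n β a b).2, 2)) hs0 S.R_tendsto ?_ ?_ ?_
      hx hy
    · filter_upwards [hE2, hfU] with n h2 hU a b ha hb'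
      have hmem : ∀ a' b' : ℕ, (a' : ℝ) ≤ s * S.R n + 1 → (b' : ℝ) ≤ s * S.R n + 1 →
          S.fb n β a' b' ∈ S.U n := fun a' b' h3 h4 => hU _ (by
            have := hpar n h2 a' b' h3 h4
            linarith)
      have m0 := hmem a b (by linarith) (by linarith)
      have m1 := hmem (a + 1) b (by push_cast; linarith) (by linarith)
      have m2 := hmem a (b + 1) (by linarith) (by push_cast; linarith)
      have m3 := hmem (a + 1) (b + 1) (by push_cast; linarith) (by push_cast; linarith)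
      have e1 : S.fb n β (a + 1) b = ((S.fb n β a b).1 + 1, (S.fb n β a b).2) := by
        simp only [fb]; push_cast; rw [add_assoc]
      have e2 : S.fb n β a (b + 1) = ((S.fb n β a b).1, (S.fb n β a b).2 + 1) := by
        simp only [fb]; push_cast; rw [add_assoc]
      have e3 : S.fb n β (a + 1) (b + 1) = ((S.fb n β a b).1 + 1, (S.fb n β a b).2 + 1) := by
        simp only [fb]; push_cast; rw [add_assoc, add_assoc]
      rw [e1] at m1
      rw [e2] at m2
      rw [e3] at m3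
      have := S.diff_id h1c h3b h3a (i := (S.fb n β a b).1) (j := (S.fb n β a b).2) m0 m1 m2 m3
      simp only [e1, e2]
      exact this
    · exact Eventually.of_forall fun n a b _ _ => ⟨S.O_norm h1c _ _, S.O_norm h1c _ _⟩
    · intro x hx y hy η hη
      obtain ⟨δ, hδ, hcl⟩ := S.O_close h1c hA2 hq0 hb hb2 (half_pos hη)
      refine ⟨δ / 4, by positivity, ?_⟩
      have hGl : ∀ᶠ n in (UF : Filter ℕ),
          ‖S.O h1c n (S.eG n (β + (x + y * om))) - S.G h1c (β + (x + y * om))‖ < η / 2 := by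
        filter_upwards [(S.G_lim h1c (β + (x + y * om))).eventually
          (ball_mem_nhds _ (half_pos hη))] with n hn
        rwa [← dist_eq_norm]
      have hE3 : ∀ᶠ n in (UF : Filter ℕ), 12 ≤ δ * S.R n := by
        filter_upwards [S.R_tendsto.eventually_ge_atTop (12 / δ)] with n hn
        rw [div_le_iff₀ hδ] at hn
        linarith
      filter_upwards [hE2, hfU, hin, hcl, hGl, hE3] with n h2 hU hI hc hg h12 a b ha hb' hax hby
      -- the reference edge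
      set w := β + ((x : ℂ) + y * om) with hw
      have hRn := S.R_pos n
      have hax' : |(a : ℝ) - S.R n * x| ≤ δ / 4 * S.R n := by
        rw [show (a : ℝ) - S.R n * x = (a / S.R n - x) * S.R n by field_simp, abs_mul,
          abs_of_pos hRn]
        exact mul_le_mul_of_nonneg_right hax hRn.le
      have hby' : |(b : ℝ) - S.R n * y| ≤ δ / 4 * S.R n := by
        rw [show (b : ℝ) - S.R n * y = (b / S.R n - y) * S.R n by field_simp, abs_mul,
          abs_of_pos hRn]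
        exact mul_le_mul_of_nonneg_right hby hRn.le
      have hww0 : ‖S.R n * w - S.R n * w0‖ ≤ s * S.R n := by
        have e : (S.R n : ℂ) * w - S.R n * w0 =
            S.R n * (((x - s / 2 : ℝ) : ℂ) + ((y - s / 2 : ℝ) : ℂ) * om) := by
          rw [hw, hβ]; push_cast; ring
        rw [e, norm_mul, Complex.norm_real, Real.norm_of_nonneg hRn.le]
        have h5 := norm_comb_le (x - s / 2) (y - s / 2)
        have h6 : |x - s / 2| ≤ s / 2 := by rw [abs_le]; constructor <;> linarith [hx.1, hx.2]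
        have h7 : |y - s / 2| ≤ s / 2 := by rw [abs_le]; constructor <;> linarith [hy.1, hy.2]
        have h8 := mul_le_mul_of_nonneg_left (h5.trans (add_le_add h6 h7)) hRn.le
        linarith
      have g1 := S.eG_near n w
      have g2 := MM_near (S.eG n w)
      have g3 := (lf_near (S.eG n w)).1
      have tri : ∀ u v x' : ℂ, ‖u - x'‖ ≤ ‖u - v‖ + ‖v - x'‖ := fun u v x' =>
        norm_sub_le_norm_sub_add_norm_sub u v x'
      have k0 : ‖(S.z n + S.R n * w) - (S.z n + S.R n * w0)‖ ≤ s * S.R n := by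
        rw [show (S.z n + S.R n * w) - (S.z n + S.R n * w0) = S.R n * w - S.R n * w0 by ring]
        exact hww0
      have k1 : ‖ctr ((S.eG n w).1, (S.eG n w).2.1) - (S.z n + S.R n * w0)‖ ≤ 2 + s * S.R n :=
        (tri _ (S.z n + S.R n * w) _).trans (add_le_add g1 k0)
      have k2 : ‖MM (S.eG n w) - (S.z n + S.R n * w0)‖ ≤ 3 + s * S.R n := by
        have := tri (MM (S.eG n w)) (ctr ((S.eG n w).1, (S.eG n w).2.1)) (S.z n + S.R n * w0)
        linarith
      have k3 : ‖ctr (lf (S.eG n w)) - (S.z n + S.R n * w0)‖ ≤ 3 + s * S.R n := by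
        have := tri (ctr (lf (S.eG n w))) (ctr ((S.eG n w).1, (S.eG n w).2.1))
          (S.z n + S.R n * w0)
        linarith
      have hEG : inE (S.U n) (S.eG n w) := Or.inl (hU _ (by linarith))
      have hMG : MM (S.eG n w) ∈ ball (S.φ n q0) (r * S.R n) := hI _ (by linarith)
      -- the edge `(a, b)`
      have c1 := hpar n h2 a b (by linarith) (by linarith)
      have c2 := S.fb_near n β a b x y
      rw [← hw] at c2
      have key : ∀ k : Fin 3, ‖S.O h1c n ((S.fb n β a b).1, (S.fb n β a b).2, k) -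
          S.G h1c w‖ ≤ η := by
        intro k
        set e : Ed := ((S.fb n β a b).1, (S.fb n β a b).2, k) with he
        have d1 := MM_near e
        have d2 := (lf_near e).1
        change ‖MM e - ctr (S.fb n β a b)‖ ≤ 1 at d1
        change ‖ctr (lf e) - ctr (S.fb n β a b)‖ ≤ 1 at d2
        have d3 : ‖MM e - (S.z n + S.R n * w0)‖ ≤ 1 + 2 * (s * S.R n) := by
          have := tri (MM e) (ctr (S.fb n β a b)) (S.z n + S.R n * w0)
          linarith
        have d4 : ‖ctr (lf e) - (S.z n + S.R n * w0)‖ ≤ 1 + 2 * (s * S.R n) := by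
          have := tri (ctr (lf e)) (ctr (S.fb n β a b)) (S.z n + S.R n * w0)
          linarith
        have hEe : inE (S.U n) e := Or.inl (hU _ (by linarith))
        have hMe : MM e ∈ ball (S.φ n q0) (r * S.R n) := hI _ (by linarith)
        have d5 : ‖MM e - MM (S.eG n w)‖ ≤ δ * S.R n := by
          have t1 := tri (MM e) (ctr (S.fb n β a b)) (MM (S.eG n w))
          have t2 := tri (ctr (S.fb n β a b)) (S.z n + S.R n * w) (MM (S.eG n w))
          have t3 := tri (MM (S.eG n w)) (ctr ((S.eG n w).1, (S.eG n w).2.1))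
            (S.z n + S.R n * w)
          rw [norm_sub_rev (S.z n + S.R n * w) (MM (S.eG n w))] at t2
          linarith
        have d6 := hc e (S.eG n w) hEe hEG hMe hMG d5
        have t4 := norm_sub_le_norm_sub_add_norm_sub (S.O h1c n e) (S.O h1c n (S.eG n w))
          (S.G h1c w)
        linarith
      exact ⟨key 0, key 2⟩
  have hGd : DifferentiableAt ℂ (S.G h1c) (ψ q0) := by
    have := hMor (s / 2) ⟨by positivity, by linarith⟩ (s / 2) ⟨by positivity, by linarith⟩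
    have e : β + (((s / 2 : ℝ) : ℂ) + ((s / 2 : ℝ) : ℂ) * om) = ψ q0 := by
      rw [hβ]; ring
    rwa [e] at this
  -- comparison with `F`
  have hcont : ContinuousAt ψ q0 := hψd.continuousAt
  have hev : ∀ᶠ q in 𝓝 q0, ‖ψ q - w0‖ < s ∧ q ∈ ball (0 : ℂ) ((1 + ‖q0‖) / 2) := by
    refine (hcont.eventually (ball_mem_nhds _ hs0)).and (isOpen_ball.mem_nhds hq0s) |>.mono ?_
    intro q hq
    refine ⟨?_, hq.2⟩
    rw [← dist_eq_norm]; exact hq.1
  have hcomp : DifferentiableAt ℂ (fun q => S.G h1c (ψ q)) q0 := hGd.comp q0 hψd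
  refine hcomp.congr_of_eventuallyEq ?_
  filter_upwards [hev] with q hq
  obtain ⟨hqs, hqb⟩ := hq
  have hq1 : ‖q‖ < 1 := by
    have := mem_ball_zero_iff.1 hqb
    linarith
  have hqP : q ∉ range P := by
    rintro ⟨j, rfl⟩
    rw [hP1 j] at hq1
    exact lt_irrefl _ hq1
  have hqlim := hψpt q hqb
  have hE4 : ∀ᶠ n in (UF : Filter ℕ), ‖ψn n q - ψ q‖ < s := by
    filter_upwards [hqlim.eventually (ball_mem_nhds _ hs0)] with n hn
    rwa [← dist_eq_norm]
  have tri : ∀ u v x' : ℂ, ‖u - x'‖ ≤ ‖u - v‖ + ‖v - x'‖ := fun u v x' =>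
    norm_sub_le_norm_sub_add_norm_sub u v x'
  -- position of the edge `eG n (ψ q)`
  have hpos : ∀ n, ‖(S.z n + S.R n * ψ q) - (S.z n + S.R n * w0)‖ ≤ s * S.R n := by
    intro n
    rw [show (S.z n + S.R n * ψ q) - (S.z n + S.R n * w0) = S.R n * (ψ q - w0) by ring, norm_mul,
      Complex.norm_real, Real.norm_of_nonneg (S.R_pos n).le]
    have := mul_le_mul_of_nonneg_left hqs.le (S.R_pos n).le
    linarith
  have hEn : ∀ᶠ n in (UF : Filter ℕ), inE (S.U n) (ed (uv (S.eG n (ψ q))) 0) ∧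
      MM (S.eG n (ψ q)) ∈ ball (S.φ n q0) (r * S.R n) := by
    filter_upwards [hE2, hfU, hin] with n h2 hU hI
    have g1 := S.eG_near n (ψ q)
    have g2 := MM_near (S.eG n (ψ q))
    have g3 := (lf_near (S.eG n (ψ q))).1
    have hp := hpos n
    have k1 := tri (ctr ((S.eG n (ψ q)).1, (S.eG n (ψ q)).2.1)) (S.z n + S.R n * ψ q)
      (S.z n + S.R n * w0)
    constructor
    · have : ed (uv (S.eG n (ψ q))) 0 = S.eG n (ψ q) := ed_uv _
      rw [this]
      refine Or.inl (hU _ ?_)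
      have := tri (ctr (lf (S.eG n (ψ q)))) (ctr ((S.eG n (ψ q)).1, (S.eG n (ψ q)).2.1))
        (S.z n + S.R n * w0)
      linarith
    · apply hI
      have := tri (MM (S.eG n (ψ q))) (ctr ((S.eG n (ψ q)).1, (S.eG n (ψ q)).2.1))
        (S.z n + S.R n * w0)
      linarith
  have hE : ∀ᶠ n in (UF : Filter ℕ), inE (S.U n) (ed (uv (S.eG n (ψ q))) 0) :=
    hEn.mono fun n h => h.1
  have hpre1 : ∀ᶠ n in (UF : Filter ℕ), ‖S.pre n (uv (S.eG n (ψ q))) 0‖ ≤ 1 :=
    hE.mono fun n h => (S.pre_spec h).1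
  have hpre2 : ∀ᶠ n in (UF : Filter ℕ), S.φ n (S.pre n (uv (S.eG n (ψ q))) 0) =
      mid (uv (S.eG n (ψ q))) 0 := hE.mono fun n h => (S.pre_spec h).2
  have hlim : Tendsto (fun n => S.pre n (uv (S.eG n (ψ q))) 0) UF (𝓝 q) := by
    rw [Metric.tendsto_nhds]
    intro ε hε
    obtain ⟨δ, hδ, hN⟩ := S.seg_near hb (half_pos hε)
    have hE5 : ∀ᶠ n in (UF : Filter ℕ), ‖ψn n q - ψ q‖ < δ / 2 := by
      filter_upwards [hqlim.eventually (ball_mem_nhds _ (half_pos hδ))] with n hn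
      rwa [← dist_eq_norm]
    have hE6 : ∀ᶠ n in (UF : Filter ℕ), 6 ≤ δ * S.R n := by
      filter_upwards [S.R_tendsto.eventually_ge_atTop (6 / δ)] with n hn
      rw [div_le_iff₀ hδ] at hn
      linarith
    filter_upwards [hEn, hpre1, hpre2, hE5, hE6, hE4, hE2, hin] with n a1 a2 a3 a4 a5 a6 a7 a8
    have hRn := S.R_pos n
    have g1 := S.eG_near n (ψ q)
    have g2 := MM_near (S.eG n (ψ q))
    have b1 : ‖S.φ n q - (S.z n + S.R n * ψ q)‖ = S.R n * ‖ψn n q - ψ q‖ := by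
      rw [hφψ, show S.z n + S.R n * ψn n q - (S.z n + S.R n * ψ q) = S.R n * (ψn n q - ψ q) by ring,
        norm_mul, Complex.norm_real, Real.norm_of_nonneg hRn.le]
    have b2 : S.R n * ‖ψn n q - ψ q‖ ≤ S.R n * s := mul_le_mul_of_nonneg_left a6.le hRn.le
    have b3 : S.R n * ‖ψn n q - ψ q‖ ≤ S.R n * (δ / 2) := mul_le_mul_of_nonneg_left a4.le hRn.le
    have hqb' : S.φ n q ∈ ball (S.φ n q0) (r * S.R n) := by
      apply a8
      have := tri (S.φ n q) (S.z n + S.R n * ψ q) (S.z n + S.R n * w0)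
      have := hpos n
      linarith
    have h7 := hN n (S.pre n (uv (S.eG n (ψ q))) 0) q a2 hq1.le
      (by rw [a3]; exact a1.2) hqb' (by
        rw [a3]
        change ‖MM (S.eG n (ψ q)) - S.φ n q‖ ≤ _
        have t1 := tri (MM (S.eG n (ψ q))) (ctr ((S.eG n (ψ q)).1, (S.eG n (ψ q)).2.1)) (S.φ n q)
        have t2 := tri (ctr ((S.eG n (ψ q)).1, (S.eG n (ψ q)).2.1)) (S.z n + S.R n * ψ q) (S.φ n q)
        rw [norm_sub_rev (S.z n + S.R n * ψ q) (S.φ n q), b1] at t2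
        linarith)
    rw [dist_eq_norm]
    linarith
  have hF : Tendsto (fun n => S.O h1c n (S.eG n (ψ q))) UF
      (𝓝 (∑ j : Fin 3, tau ^ (j : ℕ) * (S.F h1c j q : ℂ))) := by
    unfold O
    apply tendsto_finsetSum
    intro j _
    apply Tendsto.const_mul
    apply (Complex.continuous_ofReal.tendsto _).comp
    exact S.lim_val h1c hA2 hP (v := fun n => uv (S.eG n (ψ q))) (k := fun _ => 0) hE hpre1 hpre2
      hlim hqP j (c := fun n => S.cref h1c n (uv (S.eG n (ψ q))))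
      (hE.mono fun n h => S.cref_spec h1c (inV_of_inE h))
  exact tendsto_nhds_unique hF (S.G_lim h1c (ψ q))

end Sq

end Pool.Agent.H21.UC
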