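import Mathlib
import Pool.Agent.H7.UC.Defs

set_option autoImplicit false

/-!
# A discrete Morera theorem on the triangular lattice

Edge functions with the exact parallelogram identity which are close to `G` (in the scaling limit)
have a primitive in the limit, hence `G` is holomorphic.
-/

namespace Pool.Agent.H21.UC

open Pool.Agent.H7.UC Metric Set Filter Topology Asymptotics

/-- discrete primitive: first to the right, then up -/
noncomputable def PP (h w : ℕ → ℕ → ℂ) (a b : ℕ) : ℂ :=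
  ∑ x ∈ Finset.range a, h x 0 + om * ∑ y ∈ Finset.range b, w a y

lemma PP_up (h w : ℕ → ℕ → ℂ) (a b : ℕ) : PP h w a (b + 1) = PP h w a b + om * w a b := by
  simp only [PP, Finset.sum_range_succ]
  ring

lemma PP_right (h w : ℕ → ℕ → ℂ) (a b : ℕ)
    (hid : ∀ y < b, h a y - h a (y + 1) = om * (w a y - w (a + 1) y)) :
    PP h w (a + 1) b = PP h w a b + h a b := by
  induction b with
  | zero => simp [PP, Finset.sum_range_succ]
  | succ b ih =>
    rw [PP_up, PP_up, ih (fun y hy => hid y (by omega))]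
    have := hid b (by omega)
    linear_combination this

lemma chain_le {Q : ℕ → ℂ} {g : ℂ} {η : ℝ} {c c' : ℕ} (hcc : c ≤ c')
    (hQ : ∀ k, c ≤ k → k < c' → ‖Q (k + 1) - Q k - g‖ ≤ η) :
    ‖Q c' - Q c - (((c' : ℝ) - c : ℝ) : ℂ) * g‖ ≤ ((c' : ℝ) - c) * η := by
  induction c', hcc using Nat.le_induction with
  | base => simp
  | succ m hm ih =>
    have h1 := ih (fun k h1 h2 => hQ k h1 (by omega))
    have h2 := hQ m hm (by omega)
    have e : Q (m + 1) - Q c - ((((m + 1 : ℕ) : ℝ) - c : ℝ) : ℂ) * g =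
        (Q (m + 1) - Q m - g) + (Q m - Q c - (((m : ℝ) - c : ℝ) : ℂ) * g) := by
      push_cast
      ring
    rw [e]
    refine (norm_add_le _ _).trans ?_
    push_cast at h1 ⊢
    linarith

lemma chain_abs {Q : ℕ → ℂ} {g : ℂ} {η : ℝ} {c c' : ℕ}
    (hQ : ∀ k, min c c' ≤ k → k < max c c' → ‖Q (k + 1) - Q k - g‖ ≤ η) :
    ‖Q c' - Q c - (((c' : ℝ) - c : ℝ) : ℂ) * g‖ ≤ |(c' : ℝ) - c| * η := by
  rcases le_total c c' with h | h
  · rw [min_eq_left h, max_eq_right h] at hQ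
    have h1 : (c : ℝ) ≤ c' := by exact_mod_cast h
    rw [abs_of_nonneg (by linarith)]
    exact chain_le h hQ
  · rw [min_eq_right h, max_eq_left h] at hQ
    have h1 : (c' : ℝ) ≤ c := by exact_mod_cast h
    rw [abs_of_nonpos (by linarith)]
    have h2 := chain_le h hQ
    rw [← norm_neg]
    have e : -(Q c' - Q c - (((c' : ℝ) - c : ℝ) : ℂ) * g) =
        Q c - Q c' - (((c : ℝ) - c' : ℝ) : ℂ) * g := by
      push_cast
      ring
    rw [e]
    refine h2.trans (le_of_eq ?_)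
    ring

lemma om_norm : ‖om‖ = 1 := by
  rw [om, show (Real.pi * Complex.I / 3 : ℂ) = ((Real.pi / 3 : ℝ) : ℂ) * Complex.I by
    push_cast; ring, Complex.norm_exp_ofReal_mul_I]

lemma om_re : om.re = 1 / 2 := by
  rw [om, show (Real.pi * Complex.I / 3 : ℂ) = ((Real.pi / 3 : ℝ) : ℂ) * Complex.I by
    push_cast; ring, Complex.exp_ofReal_mul_I_re, Real.cos_pi_div_three]

lemma om_im : om.im = √3 / 2 := by
  rw [om, show (Real.pi * Complex.I / 3 : ℂ) = ((Real.pi / 3 : ℝ) : ℂ) * Complex.I by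
    push_cast; ring, Complex.exp_ofReal_mul_I_im, Real.sin_pi_div_three]

/-- coordinates with respect to `1, om` -/
noncomputable def cy (z : ℂ) : ℝ := 2 * z.im / √3
noncomputable def cx (z : ℂ) : ℝ := z.re - z.im / √3

lemma coord (z : ℂ) : (cx z : ℂ) + cy z * om = z := by
  have h3 : (√3 : ℝ) ≠ 0 := by positivity
  apply Complex.ext
  · simp only [Complex.add_re, Complex.ofReal_re, Complex.mul_re, Complex.ofReal_im, om_re, om_im,
      cx, cy]
    field_simp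
    ring
  · simp only [Complex.add_im, Complex.ofReal_re, Complex.mul_im, Complex.ofReal_im, om_re, om_im,
      cx, cy]
    field_simp
    ring

lemma cx_comb (x y : ℝ) : cx ((x : ℂ) + y * om) = x := by
  have h3 : (√3 : ℝ) ≠ 0 := by positivity
  simp only [cx, Complex.add_re, Complex.ofReal_re, Complex.mul_re, Complex.ofReal_im, om_re, om_im,
    Complex.add_im, Complex.mul_im]
  field_simp
  ring

lemma cy_comb (x y : ℝ) : cy ((x : ℂ) + y * om) = y := by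
  have h3 : (√3 : ℝ) ≠ 0 := by positivity
  simp only [cy, Complex.ofReal_re, Complex.ofReal_im, om_re, om_im,
    Complex.add_im, Complex.mul_im]
  field_simp
  ring

lemma cx_sub (z w : ℂ) : cx (z - w) = cx z - cx w := by
  simp only [cx, Complex.sub_re, Complex.sub_im]; ring

lemma cy_sub (z w : ℂ) : cy (z - w) = cy z - cy w := by
  simp only [cy, Complex.sub_im]; ring

lemma coord_le (z : ℂ) : |cx z| + |cy z| ≤ 4 * ‖z‖ := by
  have h3 : (1 : ℝ) ≤ √3 := by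
    rw [show (1:ℝ) = √1 by simp]
    exact Real.sqrt_le_sqrt (by norm_num)
  have h0 : 0 < √3 := by positivity
  have hre := Complex.abs_re_le_norm z
  have him := Complex.abs_im_le_norm z
  have h1 : |z.im / √3| ≤ ‖z‖ := by
    rw [abs_div, abs_of_pos h0]
    exact (div_le_self (abs_nonneg _) h3).trans him
  have h2 : |2 * z.im / √3| ≤ 2 * ‖z‖ := by
    rw [mul_div_assoc, abs_mul, abs_two]
    linarith
  have h4 : |cx z| ≤ |z.re| + |z.im / √3| := abs_sub _ _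
  have h5 : |cy z| ≤ 2 * ‖z‖ := h2
  linarith

section Limit

variable {𝒰 : Ultrafilter ℕ} {R : ℕ → ℝ} {h w : ℕ → ℕ → ℕ → ℂ} {s : ℝ} {β : ℂ} {G : ℂ → ℂ}
  {C : ℝ}

/-- increments of the discrete primitive -/
lemma incr {h w : ℕ → ℕ → ℂ} {N : ℝ} {g : ℂ} {η : ℝ} {a b a' b' : ℕ}
    (hid : ∀ a b : ℕ, (a : ℝ) ≤ N → (b : ℝ) ≤ N → h a b - h a (b + 1) = om * (w a b - w (a + 1) b))
    (ha : (a : ℝ) ≤ N) (hb : (b : ℝ) ≤ N) (ha' : (a' : ℝ) ≤ N) (hb' : (b' : ℝ) ≤ N)
    (hh : ∀ k, min a a' ≤ k → k < max a a' → ‖h k b' - g‖ ≤ η)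
    (hw : ∀ k, min b b' ≤ k → k < max b b' → ‖w a k - g‖ ≤ η) :
    ‖PP h w a' b' - PP h w a b - ((((a' : ℝ) - a : ℝ) : ℂ) + (((b' : ℝ) - b : ℝ) : ℂ) * om) * g‖ ≤
      (|(a' : ℝ) - a| + |(b' : ℝ) - b|) * η := by
  have hmax : ((max a a' : ℕ) : ℝ) ≤ N := by
    rw [Nat.cast_max]; exact max_le ha ha'
  have h1 : ‖PP h w a' b' - PP h w a b' - (((a' : ℝ) - a : ℝ) : ℂ) * g‖ ≤ |(a' : ℝ) - a| * η := by
    apply chain_abs (Q := fun k => PP h w k b')
    intro k hk1 hk2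
    have hkN : (k : ℝ) ≤ N := by
      have : (k : ℝ) ≤ ((max a a' : ℕ) : ℝ) := by exact_mod_cast hk2.le
      exact this.trans hmax
    rw [PP_right h w k b' (fun y hy => hid k y hkN (by
      have : (y : ℝ) ≤ b' := by exact_mod_cast hy.le
      linarith))]
    rw [show PP h w k b' + h k b' - PP h w k b' - g = h k b' - g by ring]
    exact hh k hk1 hk2
  have h2 : ‖PP h w a b' - PP h w a b - (((b' : ℝ) - b : ℝ) : ℂ) * (om * g)‖ ≤
      |(b' : ℝ) - b| * η := by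
    apply chain_abs (Q := fun k => PP h w a k)
    intro k hk1 hk2
    rw [PP_up, show PP h w a k + om * w a k - PP h w a k - om * g = om * (w a k - g) by ring,
      norm_mul, om_norm, one_mul]
    exact hw k hk1 hk2
  have e : PP h w a' b' - PP h w a b -
      ((((a' : ℝ) - a : ℝ) : ℂ) + (((b' : ℝ) - b : ℝ) : ℂ) * om) * g =
      (PP h w a' b' - PP h w a b' - (((a' : ℝ) - a : ℝ) : ℂ) * g) +
      (PP h w a b' - PP h w a b - (((b' : ℝ) - b : ℝ) : ℂ) * (om * g)) := by ring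
  rw [e]
  refine (norm_add_le _ _).trans ?_
  rw [add_mul]
  exact add_le_add h1 h2

lemma PP_bound {h w : ℕ → ℕ → ℂ} {N : ℝ} {C : ℝ} {a b : ℕ}
    (ha : (a : ℝ) ≤ N) (hb : (b : ℝ) ≤ N) (hN : 0 ≤ N)
    (hC : ∀ a b : ℕ, (a : ℝ) ≤ N → (b : ℝ) ≤ N → ‖h a b‖ ≤ C ∧ ‖w a b‖ ≤ C) :
    ‖PP h w a b‖ ≤ (2 * N) * C := by
  have hC0 : 0 ≤ C := (norm_nonneg _).trans (hC 0 0 (by simpa using hN) (by simpa using hN)).1
  have h1 : ‖∑ x ∈ Finset.range a, h x 0‖ ≤ a * C := by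
    refine (norm_sum_le _ _).trans ?_
    refine (Finset.sum_le_card_nsmul _ _ C ?_).trans (by simp)
    intro x hx
    have : (x : ℝ) ≤ a := by exact_mod_cast (Finset.mem_range.1 hx).le
    exact (hC x 0 (by linarith) (by simpa using hN)).1
  have h2 : ‖∑ y ∈ Finset.range b, w a y‖ ≤ b * C := by
    refine (norm_sum_le _ _).trans ?_
    refine (Finset.sum_le_card_nsmul _ _ C ?_).trans (by simp)
    intro y hy
    have : (y : ℝ) ≤ b := by exact_mod_cast (Finset.mem_range.1 hy).le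
    exact (hC a y ha (by linarith)).2
  rw [PP]
  refine (norm_add_le _ _).trans ?_
  rw [norm_mul, om_norm, one_mul]
  have h3 := mul_le_mul_of_nonneg_right ha hC0
  have h4 := mul_le_mul_of_nonneg_right hb hC0
  linarith

lemma floor_tendsto (hR : Tendsto R 𝒰 atTop) {x : ℝ} (hx : 0 ≤ x) :
    Tendsto (fun n => ((⌊x * R n⌋₊ : ℝ) / R n)) 𝒰 (𝓝 x) :=
  (tendsto_nat_floor_mul_div_atTop hx).comp hR

/-- **Discrete Morera theorem.** -/
theorem morera_lattice (hs : 0 < s) (hR : Tendsto R 𝒰 atTop)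
    (hid : ∀ᶠ n in (𝒰 : Filter ℕ), ∀ a b : ℕ, (a : ℝ) ≤ s * R n → (b : ℝ) ≤ s * R n →
      h n a b - h n a (b + 1) = om * (w n a b - w n (a + 1) b))
    (hC : ∀ᶠ n in (𝒰 : Filter ℕ), ∀ a b : ℕ, (a : ℝ) ≤ s * R n → (b : ℝ) ≤ s * R n →
      ‖h n a b‖ ≤ C ∧ ‖w n a b‖ ≤ C)
    (hcl : ∀ x ∈ Icc 0 s, ∀ y ∈ Icc 0 s, ∀ η > (0 : ℝ), ∃ δ > (0 : ℝ),
      ∀ᶠ n in (𝒰 : Filter ℕ), ∀ a b : ℕ, (a : ℝ) ≤ s * R n → (b : ℝ) ≤ s * R n →
      |a / R n - x| ≤ δ → |b / R n - y| ≤ δ →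
      ‖h n a b - G (β + (x + y * om))‖ ≤ η ∧ ‖w n a b - G (β + (x + y * om))‖ ≤ η)
    {x y : ℝ} (hx : x ∈ Ioo 0 s) (hy : y ∈ Ioo 0 s) :
    DifferentiableAt ℂ G (β + (x + y * om)) := by
  have hRpos : ∀ᶠ n in (𝒰 : Filter ℕ), 0 < R n := hR.eventually_gt_atTop 0
  -- the primitive
  have hlim : ∀ x y : ℝ, ∃ L : ℂ, x ∈ Icc 0 s → y ∈ Icc 0 s →
      Tendsto (fun n => PP (h n) (w n) ⌊x * R n⌋₊ ⌊y * R n⌋₊ / R n) 𝒰 (𝓝 L) := by
    intro x y
    by_cases hxy : x ∈ Icc 0 s ∧ y ∈ Icc 0 s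
    · have hK : IsCompact (closedBall (0 : ℂ) (2 * s * C)) := isCompact_closedBall _ _
      have h2 : (𝒰.map (fun n => PP (h n) (w n) ⌊x * R n⌋₊ ⌊y * R n⌋₊ / (R n : ℂ)) : Filter ℂ) ≤
          𝓟 (closedBall (0 : ℂ) (2 * s * C)) := by
        rw [le_principal_iff]
        change ∀ᶠ n in (𝒰 : Filter ℕ), _ ∈ closedBall (0 : ℂ) (2 * s * C)
        filter_upwards [hC, hRpos] with n hn hRn
        have ha : ((⌊x * R n⌋₊ : ℕ) : ℝ) ≤ s * R n :=
          (Nat.floor_le (mul_nonneg hxy.1.1 hRn.le)).trans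
            (mul_le_mul_of_nonneg_right hxy.1.2 hRn.le)
        have hb : ((⌊y * R n⌋₊ : ℕ) : ℝ) ≤ s * R n :=
          (Nat.floor_le (mul_nonneg hxy.2.1 hRn.le)).trans
            (mul_le_mul_of_nonneg_right hxy.2.2 hRn.le)
        have := PP_bound ha hb (by positivity) hn
        rw [mem_closedBall_zero_iff, norm_div, Complex.norm_real, Real.norm_of_nonneg hRn.le,
          div_le_iff₀ hRn]
        calc _ ≤ _ := this
          _ = _ := by ring
      obtain ⟨L, -, hL⟩ := hK.ultrafilter_le_nhds _ h2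
      exact ⟨L, fun _ _ => hL⟩
    · exact ⟨0, fun h1 h2 => absurd ⟨h1, h2⟩ hxy⟩
  choose Hc hHc using hlim
  -- increments of the limit
  have hinc : ∀ x ∈ Icc 0 s, ∀ y ∈ Icc 0 s, ∀ η > (0 : ℝ), ∃ δ > (0 : ℝ), ∀ x' ∈ Icc 0 s,
      ∀ y' ∈ Icc 0 s, |x' - x| ≤ δ → |y' - y| ≤ δ →
      ‖Hc x' y' - Hc x y - (((x' - x : ℝ) : ℂ) + ((y' - y : ℝ) : ℂ) * om) *
        G (β + (x + y * om))‖ ≤ (|x' - x| + |y' - y|) * η := by
    intro x hx y hy η hη
    obtain ⟨δ, hδ, hcl⟩ := hcl x hx y hy η hη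
    refine ⟨δ / 2, by positivity, fun x' hx' y' hy' hxx hyy => ?_⟩
    have hbig : ∀ᶠ n in (𝒰 : Filter ℕ), 2 / δ ≤ R n := hR.eventually_ge_atTop _
    have ht1 := floor_tendsto (𝒰 := 𝒰) hR hx.1
    have ht2 := floor_tendsto (𝒰 := 𝒰) hR hy.1
    have ht3 := floor_tendsto (𝒰 := 𝒰) hR hx'.1
    have ht4 := floor_tendsto (𝒰 := 𝒰) hR hy'.1
    set g := G (β + (x + y * om)) with hg
    have hL : Tendsto (fun n => ‖PP (h n) (w n) ⌊x' * R n⌋₊ ⌊y' * R n⌋₊ / R n -
        PP (h n) (w n) ⌊x * R n⌋₊ ⌊y * R n⌋₊ / R n -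
        (((⌊x' * R n⌋₊ / R n - ⌊x * R n⌋₊ / R n : ℝ) : ℂ) +
          ((⌊y' * R n⌋₊ / R n - ⌊y * R n⌋₊ / R n : ℝ) : ℂ) * om) * g‖) 𝒰
        (𝓝 ‖Hc x' y' - Hc x y - (((x' - x : ℝ) : ℂ) + ((y' - y : ℝ) : ℂ) * om) * g‖) := by
      apply Tendsto.norm
      apply Tendsto.sub
      · exact (hHc x' y' hx' hy').sub (hHc x y hx hy)
      · apply Tendsto.mul_const
        apply Tendsto.add
        · exact (Complex.continuous_ofReal.tendsto _).comp (ht3.sub ht1)
        · apply Tendsto.mul_const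
          exact (Complex.continuous_ofReal.tendsto _).comp (ht4.sub ht2)
    have hRt : Tendsto (fun n => (|(⌊x' * R n⌋₊ / R n - ⌊x * R n⌋₊ / R n : ℝ)| +
        |(⌊y' * R n⌋₊ / R n - ⌊y * R n⌋₊ / R n : ℝ)|) * η) 𝒰
        (𝓝 ((|x' - x| + |y' - y|) * η)) := by
      apply Tendsto.mul_const
      exact ((ht3.sub ht1).abs).add ((ht4.sub ht2).abs)
    refine le_of_tendsto_of_tendsto hL hRt ?_
    filter_upwards [hid, hcl, hRpos, hbig] with n hidn hcln hRn hbn
    have hfl : ∀ t ∈ Icc 0 s, ((⌊t * R n⌋₊ : ℕ) : ℝ) ≤ s * R n := fun t ht =>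
      (Nat.floor_le (mul_nonneg ht.1 hRn.le)).trans (mul_le_mul_of_nonneg_right ht.2 hRn.le)
    have hfl1 : ∀ t ∈ Icc 0 s, ((⌊t * R n⌋₊ : ℕ) : ℝ) / R n ≤ t := fun t ht => by
      rw [div_le_iff₀ hRn]; exact Nat.floor_le (mul_nonneg ht.1 hRn.le)
    have hfl2 : ∀ t ∈ Icc 0 s, t - δ / 2 ≤ ((⌊t * R n⌋₊ : ℕ) : ℝ) / R n := fun t ht => by
      rw [le_div_iff₀ hRn]
      have h1 := Nat.lt_floor_add_one (t * R n)
      have h2 : 1 ≤ δ / 2 * R n := by
        rw [div_le_iff₀ hδ] at hbn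
        linarith
      nlinarith
    -- every index between is close
    have hbet : ∀ t ∈ Icc 0 s, ∀ t' ∈ Icc 0 s, |t' - t| ≤ δ / 2 → ∀ k : ℕ,
        min ⌊t * R n⌋₊ ⌊t' * R n⌋₊ ≤ k → k ≤ max ⌊t * R n⌋₊ ⌊t' * R n⌋₊ →
        (k : ℝ) ≤ s * R n ∧ |(k : ℝ) / R n - t| ≤ δ := by
      intro t ht t' ht' htt k hk1 hk2
      have e1 : (min ((⌊t * R n⌋₊ : ℕ) : ℝ) ((⌊t' * R n⌋₊ : ℕ) : ℝ)) ≤ k := by
        rw [← Nat.cast_min]; exact_mod_cast hk1
      have e2 : (k : ℝ) ≤ max ((⌊t * R n⌋₊ : ℕ) : ℝ) ((⌊t' * R n⌋₊ : ℕ) : ℝ) := by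
        rw [← Nat.cast_max]; exact_mod_cast hk2
      refine ⟨e2.trans (max_le (hfl t ht) (hfl t' ht')), ?_⟩
      rw [abs_le] at htt ⊢
      constructor
      · have : min t t' - δ / 2 ≤ (k : ℝ) / R n := by
          rw [le_div_iff₀ hRn]
          refine le_trans ?_ e1
          rw [le_min_iff]
          have h1 := hfl2 t ht
          have h2 := hfl2 t' ht'
          rw [le_div_iff₀ hRn] at h1 h2
          constructor
          · refine le_trans ?_ h1
            apply mul_le_mul_of_nonneg_right _ hRn.le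
            linarith [min_le_left t t']
          · refine le_trans ?_ h2
            apply mul_le_mul_of_nonneg_right _ hRn.le
            linarith [min_le_right t t']
        have h3 : t - δ / 2 ≤ min t t' := by
          rw [le_min_iff]; constructor <;> linarith
        linarith
      · have : (k : ℝ) / R n ≤ max t t' := by
          rw [div_le_iff₀ hRn]
          refine e2.trans ?_
          rw [max_le_iff]
          have h1 := hfl1 t ht
          have h2 := hfl1 t' ht'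
          rw [div_le_iff₀ hRn] at h1 h2
          constructor
          · refine h1.trans ?_
            exact mul_le_mul_of_nonneg_right (le_max_left _ _) hRn.le
          · refine h2.trans ?_
            exact mul_le_mul_of_nonneg_right (le_max_right _ _) hRn.le
        have h3 : max t t' ≤ t + δ / 2 := by
          rw [max_le_iff]; constructor <;> linarith
        linarith
    have hx'k := hbet x hx x' hx' hxx
    have hy'k := hbet y hy y' hy' hyy
    have hmain := incr (h := h n) (w := w n) (N := s * R n) (g := g) (η := η)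
      (a := ⌊x * R n⌋₊) (b := ⌊y * R n⌋₊) (a' := ⌊x' * R n⌋₊) (b' := ⌊y' * R n⌋₊) hidn
      (hfl x hx) (hfl y hy) (hfl x' hx') (hfl y' hy')
      (fun k hk1 hk2 => by
        obtain ⟨e1, e2⟩ := hx'k k hk1 hk2.le
        obtain ⟨e3, e4⟩ := hy'k ⌊y' * R n⌋₊ (min_le_right _ _) (le_max_right _ _)
        exact (hcln k _ e1 e3 e2 e4).1)
      (fun k hk1 hk2 => by
        obtain ⟨e1, e2⟩ := hy'k k hk1 hk2.le
        obtain ⟨e3, e4⟩ := hx'k ⌊x * R n⌋₊ (min_le_left _ _) (le_max_left _ _)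
        exact (hcln _ k e3 e1 e4 e2).2)
    have hRc : (R n : ℂ) ≠ 0 := by exact_mod_cast hRn.ne'
    have e : PP (h n) (w n) ⌊x' * R n⌋₊ ⌊y' * R n⌋₊ / R n -
        PP (h n) (w n) ⌊x * R n⌋₊ ⌊y * R n⌋₊ / R n -
        (((⌊x' * R n⌋₊ / R n - ⌊x * R n⌋₊ / R n : ℝ) : ℂ) +
          ((⌊y' * R n⌋₊ / R n - ⌊y * R n⌋₊ / R n : ℝ) : ℂ) * om) * g =
        (PP (h n) (w n) ⌊x' * R n⌋₊ ⌊y' * R n⌋₊ - PP (h n) (w n) ⌊x * R n⌋₊ ⌊y * R n⌋₊ -
          ((((⌊x' * R n⌋₊ : ℝ) - ⌊x * R n⌋₊ : ℝ) : ℂ) +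
          (((⌊y' * R n⌋₊ : ℝ) - ⌊y * R n⌋₊ : ℝ) : ℂ) * om) * g) / R n := by
      push_cast
      field_simp
    rw [e, norm_div, Complex.norm_real, Real.norm_of_nonneg hRn.le, div_le_iff₀ hRn]
    refine hmain.trans (le_of_eq ?_)
    rw [← sub_div, ← sub_div, abs_div, abs_div, abs_of_pos hRn]
    field_simp
  -- the primitive as a function of a complex variable
  set H : ℂ → ℂ := fun z => Hc (cx (z - β)) (cy (z - β)) with hH
  set P : Set ℂ := {z | cx (z - β) ∈ Ioo 0 s ∧ cy (z - β) ∈ Ioo 0 s} with hP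
  have hcxc : Continuous (fun z : ℂ => cx (z - β)) := by
    unfold cx; fun_prop
  have hcyc : Continuous (fun z : ℂ => cy (z - β)) := by
    unfold cy; fun_prop
  have hPo : IsOpen P := (isOpen_Ioo.preimage hcxc).inter (isOpen_Ioo.preimage hcyc)
  have hder : ∀ z ∈ P, HasDerivAt H (G z) z := by
    intro z hz
    rw [hasDerivAt_iff_isLittleO, isLittleO_iff]
    intro c hc
    obtain ⟨δ, hδ, hi⟩ := hinc _ (Ioo_subset_Icc_self hz.1) _ (Ioo_subset_Icc_self hz.2) (c / 4)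
      (by positivity)
    have hnear : ∀ᶠ z' in 𝓝 z, ‖z' - z‖ < δ / 4 := by
      have : ball z (δ / 4) ∈ 𝓝 z := ball_mem_nhds _ (by positivity)
      filter_upwards [this] with z' hz'
      rwa [← dist_eq_norm]
    filter_upwards [hPo.mem_nhds hz, hnear] with z' hz' hd
    have hz0 : z = β + (((cx (z - β) : ℝ) : ℂ) + ((cy (z - β) : ℝ) : ℂ) * om) := by
      rw [coord]; ring
    have hcd := coord_le (z' - z)
    have e1 : cx (z' - z) = cx (z' - β) - cx (z - β) := by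
      rw [← cx_sub]; congr 1; ring
    have e2 : cy (z' - z) = cy (z' - β) - cy (z - β) := by
      rw [← cy_sub]; congr 1; ring
    rw [e1, e2] at hcd
    have h1 : |cx (z' - β) - cx (z - β)| ≤ δ := by
      have := abs_nonneg (cy (z' - β) - cy (z - β))
      linarith
    have h2 : |cy (z' - β) - cy (z - β)| ≤ δ := by
      have := abs_nonneg (cx (z' - β) - cx (z - β))
      linarith
    have h3 := hi _ (Ioo_subset_Icc_self hz'.1) _ (Ioo_subset_Icc_self hz'.2) h1 h2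
    have e3 : (((cx (z' - β) - cx (z - β) : ℝ) : ℂ) + ((cy (z' - β) - cy (z - β) : ℝ) : ℂ) * om) =
        z' - z := by
      rw [← e1, ← e2, coord]
    rw [e3, ← hz0] at h3
    rw [smul_eq_mul]
    refine h3.trans ?_
    nlinarith
  have hx0 : (x : ℝ) ∈ Ioo 0 s := hx
  have hmem : β + (x + y * om) ∈ P := by
    constructor
    · rw [show β + ((x : ℂ) + y * om) - β = x + y * om by ring, cx_comb]; exact hx
    · rw [show β + ((x : ℂ) + y * om) - β = x + y * om by ring, cy_comb]; exact hy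
  have hdiff : DifferentiableOn ℂ H P := fun z hz => (hder z hz).differentiableAt.differentiableWithinAt
  have h2 : DifferentiableOn ℂ (deriv H) P := hdiff.deriv hPo
  have h3 : DifferentiableOn ℂ G P := h2.congr (fun z hz => (hder z hz).deriv.symm)
  exact h3.differentiableAt (hPo.mem_nhds hmem)

end Limit

end Pool.Agent.H21.UC
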