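import Pool.Agent.H21.UC.ArcC
import Pool.Agent.H69.UC.G1

set_option autoImplicit false

/-!
# Sequences of situations and the limit functions
-/

namespace Pool.Agent.H21.UC

open Pool.Agent.H7.UC Metric Set Filter Topology ComplexConjugate
open Pool.Agent.H75.Perc

/-- the ultrafilter -/
noncomputable abbrev UF : Ultrafilter ℕ := hyperfilter ℕ

/-- a sequence of situations with `R → ∞` -/
structure Sq where
  U : ℕ → Finset Fc
  M : ∀ n, Marks (U n) 3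
  z : ℕ → ℂ
  R : ℕ → ℝ
  κ : ℝ
  φ : ℕ → ℂ → ℂ
  p : ℕ → Fin 3 → ℂ
  hκ : 0 < κ
  sit : ∀ n, Sit 3 (U n) (M n) (z n) (R n) κ (φ n) (p n)
  big : ∀ n : ℕ, (n : ℝ) + 1 ≤ R n

lemma Sit.mono_κ {n : ℕ} [NeZero n] {U : Finset Fc} {M : Marks U n} {z : ℂ} {R κ κ' : ℝ}
    {φ : ℂ → ℂ} {p : Fin n → ℂ} (h : Sit n U M z R κ φ p) (hκ : κ' ≤ κ) :
    Sit n U M z R κ' φ p :=
  ⟨h.dom, h.inner, h.chart, h.zero, h.mark, fun j l hjl => hκ.trans (h.sep j l hjl)⟩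

lemma inV_of_inE {U : Finset Fc} {v : Vx} {k : Fin 3} (h : inE U (ed v k)) : inV U v := by
  rcases (inE_iff U v k).1 h with h | h
  · exact ⟨_, h⟩
  · exact ⟨_, h⟩

namespace Sq

variable (S : Sq)

lemma R_tendsto : Tendsto S.R UF atTop := by
  have h1 : Tendsto (fun n : ℕ => (n : ℝ) + 1) atTop atTop :=
    tendsto_atTop_add_const_right _ _ tendsto_natCast_atTop_atTop
  have h2 : Tendsto S.R atTop atTop := tendsto_atTop_mono S.big h1
  exact h2.mono_left Nat.hyperfilter_le_atTop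

lemma R_pos (n : ℕ) : 0 < S.R n := by
  have := S.big n
  have h2 : (0 : ℝ) ≤ n := Nat.cast_nonneg n
  linarith

/-- compactness along the ultrafilter -/
lemma exists_lim {E : Type*} [TopologicalSpace E] {K : Set E} (hK : IsCompact K) {u : ℕ → E}
    (hu : ∀ᶠ n in (UF : Filter ℕ), u n ∈ K) : ∃ a ∈ K, Tendsto u UF (𝓝 a) := by
  have h2 : (UF.map u : Filter E) ≤ 𝓟 K := by
    rw [le_principal_iff]
    exact hu
  obtain ⟨a, ha, ha2⟩ := hK.ultrafilter_le_nhds _ h2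
  exact ⟨a, ha, ha2⟩

/-- limit marks -/
lemma exists_marks : ∃ P : Fin 3 → ℂ, (∀ j, Tendsto (fun n => S.p n j) UF (𝓝 (P j))) ∧
    (∀ j, ‖P j‖ = 1) ∧ Function.Injective P := by
  have h1 : ∀ j : Fin 3, ∃ a ∈ sphere (0 : ℂ) 1, Tendsto (fun n => S.p n j) UF (𝓝 a) := fun j =>
    exists_lim (isCompact_sphere _ _)
      (Eventually.of_forall fun n => by rw [mem_sphere_zero_iff_norm]; exact ((S.sit n).mark j).1)
  choose P hP1 hP2 using h1
  refine ⟨P, hP2, fun j => by simpa using hP1 j, ?_⟩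
  intro j l hjl
  by_contra hne
  have h3 : Tendsto (fun n => ‖S.p n j - S.p n l‖) UF (𝓝 ‖P j - P l‖) :=
    ((hP2 j).sub (hP2 l)).norm
  have h4 : S.κ ≤ ‖P j - P l‖ :=
    ge_of_tendsto h3 (Eventually.of_forall fun n => (S.sit n).sep j l hne)
  rw [hjl, sub_self, norm_zero] at h4
  exact absurd S.hκ (not_lt.2 h4)

/-- two points of the closed disc with images in one cell are close -/
lemma near {η : ℝ} (hη : 0 < η) : ∀ᶠ n in (UF : Filter ℕ), ∀ f ∈ S.U n, ∀ a b : ℂ, ‖a‖ ≤ 1 →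
    ‖b‖ ≤ 1 → S.φ n a ∈ cell f → S.φ n b ∈ cell f → ‖a - b‖ ≤ η := by
  obtain ⟨δ, hδ, hG⟩ := Pool.Agent.H69.UC.G1 hη
  filter_upwards [S.R_tendsto.eventually_ge_atTop (2 / δ)] with n hn f hf a b ha hb hfa hfb
  have h := hG (reg (S.U n)) (S.φ n) (S.z n) (S.R n) (S.sit n).chart (S.sit n).zero (S.R_pos n)
    (S.sit n).inner (closedBall (0 : ℂ) 1 ∩ S.φ n ⁻¹' cell f) inter_subset_left
    (chart_preconn (S.sit n).chart (cell_convex f).isPreconnected (cell_sub_closure hf))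
    (by
      rintro x ⟨-, hx⟩ y ⟨-, hy⟩
      rw [dist_eq_norm]
      refine (cell_dist hx hy).trans ?_
      rw [div_le_iff₀ hδ] at hn
      linarith)
    a ⟨by simpa using ha, hfa⟩ b ⟨by simpa using hb, hfb⟩
  rwa [dist_eq_norm] at h

/-- small connected sets in the closure of the domain have small preimages -/
lemma near_set {η : ℝ} (hη : 0 < η) : ∃ δ > (0 : ℝ), ∀ n, ∀ T : Set ℂ, IsPreconnected T →
    T ⊆ closure (reg (S.U n)) → (∀ x ∈ T, ∀ y ∈ T, ‖x - y‖ ≤ δ * S.R n) → ∀ a b : ℂ, ‖a‖ ≤ 1 →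
    ‖b‖ ≤ 1 → S.φ n a ∈ T → S.φ n b ∈ T → ‖a - b‖ ≤ η := by
  obtain ⟨δ, hδ, hG⟩ := Pool.Agent.H69.UC.G1 hη
  refine ⟨δ, hδ, fun n T hT hTs hd a b ha hb hfa hfb => ?_⟩
  have h := hG (reg (S.U n)) (S.φ n) (S.z n) (S.R n) (S.sit n).chart (S.sit n).zero (S.R_pos n)
    (S.sit n).inner (closedBall (0 : ℂ) 1 ∩ S.φ n ⁻¹' T) inter_subset_left
    (chart_preconn (S.sit n).chart hT hTs)
    (by
      rintro x ⟨-, hx⟩ y ⟨-, hy⟩
      rw [dist_eq_norm]
      exact hd _ hx _ hy)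
    a ⟨by simpa using ha, hfa⟩ b ⟨by simpa using hb, hfb⟩
  rwa [dist_eq_norm] at h

variable (h1c : D1c)

/-- chosen reference chains -/
noncomputable def cref (n : ℕ) (v : Vx) : Ed → ZMod 2 := by
  classical
  exact if h : inV (S.U n) v then (h1c (S.U n) (S.M n) (S.sit n).dom v h).1.choose else 0

lemma cref_spec {n : ℕ} {v : Vx} (h : inV (S.U n) v) : IsRef (S.M n) v (S.cref h1c n v) := by
  rw [cref, dif_pos h]
  exact (h1c (S.U n) (S.M n) (S.sit n).dom v h).1.choose_spec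

/-- the value at a half edge -/
noncomputable def Val (n : ℕ) (v : Vx) (k j : Fin 3) : ℝ := X (S.M n) (S.cref h1c n v) v k j

lemma Val_mem (n : ℕ) (v : Vx) (k j : Fin 3) : S.Val h1c n v k j ∈ Icc (0 : ℝ) 1 :=
  ⟨Pr_nonneg _ _, Pr_le_one _ _⟩

/-- a vertex near the image of `q` -/
lemma exists_sel (n : ℕ) (q : ℂ) : ∃ v : Vx, ‖q‖ ≤ 1 → (inE (S.U n) (ed v 0) ∧
    ∃ f ∈ S.U n, S.φ n q ∈ cell f ∧ mid v 0 ∈ cell f) := by
  by_cases hq : ‖q‖ ≤ 1
  · have h1 : S.φ n q ∈ closure (reg (S.U n)) := by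
      rw [← (S.sit n).chart.imgc]
      exact ⟨q, by simpa using hq, rfl⟩
    obtain ⟨f, hf, hfq⟩ := exists_cell h1
    have hfc : fc (f.1, f.2, false) (0 + 1) = f := by simp [fc]
    refine ⟨(f.1, f.2, false), fun _ => ⟨?_, f, hf, hfq, ?_⟩⟩
    · rw [inE_iff]
      left
      rw [hfc]; exact hf
    · have := (mid_mem (f.1, f.2, false) 0).1
      rwa [hfc] at this
  · exact ⟨(0, 0, false), fun h => absurd h hq⟩

noncomputable def sel (n : ℕ) (q : ℂ) : Vx := (S.exists_sel n q).choose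

lemma sel_spec {n : ℕ} {q : ℂ} (hq : ‖q‖ ≤ 1) : inE (S.U n) (ed (S.sel n q) 0) ∧
    ∃ f ∈ S.U n, S.φ n q ∈ cell f ∧ mid (S.sel n q) 0 ∈ cell f :=
  (S.exists_sel n q).choose_spec hq

/-- preimage of the middle of an edge -/
lemma exists_pre (n : ℕ) (v : Vx) (k : Fin 3) : ∃ q : ℂ, inE (S.U n) (ed v k) →
    (‖q‖ ≤ 1 ∧ S.φ n q = mid v k) := by
  by_cases h : inE (S.U n) (ed v k)
  · obtain ⟨q, h1, h2⟩ := chart_surj (S.sit n).chart (mid_mem_closure h)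
    exact ⟨q, fun _ => ⟨h1, h2⟩⟩
  · exact ⟨0, fun h' => absurd h' h⟩

noncomputable def pre (n : ℕ) (v : Vx) (k : Fin 3) : ℂ := (S.exists_pre n v k).choose

lemma pre_spec {n : ℕ} {v : Vx} {k : Fin 3} (h : inE (S.U n) (ed v k)) :
    ‖S.pre n v k‖ ≤ 1 ∧ S.φ n (S.pre n v k) = mid v k := (S.exists_pre n v k).choose_spec h

/-- the limit functions -/
lemma exists_F (j : Fin 3) (q : ℂ) : ∃ L ∈ Icc (0 : ℝ) 1,
    Tendsto (fun n => S.Val h1c n (S.sel n q) 0 j) UF (𝓝 L) :=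
  exists_lim isCompact_Icc (Eventually.of_forall fun n => S.Val_mem h1c _ _ _ _)

noncomputable def F (j : Fin 3) (q : ℂ) : ℝ := (S.exists_F h1c j q).choose

lemma F_mem (j : Fin 3) (q : ℂ) : S.F h1c j q ∈ Icc (0 : ℝ) 1 := (S.exists_F h1c j q).choose_spec.1

lemma F_lim (j : Fin 3) (q : ℂ) :
    Tendsto (fun n => S.Val h1c n (S.sel n q) 0 j) UF (𝓝 (S.F h1c j q)) :=
  (S.exists_F h1c j q).choose_spec.2

lemma pre_sel_near {q : ℂ} (hq : ‖q‖ ≤ 1) {η : ℝ} (hη : 0 < η) :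
    ∀ᶠ n in (UF : Filter ℕ), ‖S.pre n (S.sel n q) 0 - q‖ ≤ η := by
  filter_upwards [S.near hη] with n hn
  obtain ⟨h1, f, hf, h2, h3⟩ := S.sel_spec (n := n) hq
  obtain ⟨h4, h5⟩ := S.pre_spec h1
  exact hn f hf _ _ h4 hq (by rw [h5]; exact h3) h2

/-- A2 along the sequence -/
lemma A2_seq (hA2 : A2) {ε κ' : ℝ} (hε : 0 < ε) (hκ' : 0 < κ') : ∃ δ > (0 : ℝ),
    ∀ᶠ n in (UF : Filter ℕ), ∀ v k v' k' q q', inE (S.U n) (ed v k) → inE (S.U n) (ed v' k') →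
    ‖q‖ ≤ 1 → ‖q'‖ ≤ 1 → S.φ n q = mid v k → S.φ n q' = mid v' k' → ‖q - q'‖ ≤ δ →
    (∀ j, κ' ≤ ‖q - S.p n j‖) → ∀ c c', IsRef (S.M n) v c → IsRef (S.M n) v' c' → ∀ j,
    |X (S.M n) c v k j - X (S.M n) c' v' k' j| ≤ ε := by
  obtain ⟨δ, hδ, K, hK⟩ := hA2 ε hε (min κ' S.κ) (lt_min hκ' S.hκ)
  refine ⟨δ, hδ, ?_⟩
  filter_upwards [S.R_tendsto.eventually_ge_atTop K] with n hn
  intro v k v' k' q q' h1 h2 h3 h4 h5 h6 h7 h8 c c' hc hc' j
  exact hK (S.U n) (S.M n) (S.z n) (S.R n) (S.φ n) (S.p n)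
    (Sit.mono_κ (S.sit n) (min_le_right _ _)) hn v k v' k' q q' h1 h2 h3 h4 h5 h6 h7
    (fun j => (min_le_left _ _).trans (h8 j)) c c' hc hc' j

variable {P : Fin 3 → ℂ}

/-- points near a non-mark stay away from the marks -/
lemma away (hP : ∀ j, Tendsto (fun n => S.p n j) UF (𝓝 (P j))) {q : ℂ} (hq : q ∉ range P) :
    ∃ r > (0 : ℝ), ∀ᶠ n in (UF : Filter ℕ), ∀ x, ‖x - q‖ ≤ r → ∀ j, r ≤ ‖x - S.p n j‖ := by
  have hpos : ∀ j : Fin 3, 0 < ‖q - P j‖ := fun j => by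
    rw [norm_pos_iff, sub_ne_zero]
    rintro rfl
    exact hq ⟨j, rfl⟩
  obtain ⟨r, hr, hrj⟩ : ∃ r > (0 : ℝ), ∀ j, 3 * r ≤ ‖q - P j‖ := by
    refine ⟨(min (min ‖q - P 0‖ ‖q - P 1‖) ‖q - P 2‖) / 3, ?_, ?_⟩
    · have := hpos 0
      have := hpos 1
      have := hpos 2
      positivity
    · intro j
      have e : 3 * ((min (min ‖q - P 0‖ ‖q - P 1‖) ‖q - P 2‖) / 3) =
        min (min ‖q - P 0‖ ‖q - P 1‖) ‖q - P 2‖ := by ring
      rw [e]
      fin_cases j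
      · exact (min_le_left _ _).trans (min_le_left _ _)
      · exact (min_le_left _ _).trans (min_le_right _ _)
      · exact min_le_right _ _
  have hev : ∀ j : Fin 3, ∀ᶠ n in (UF : Filter ℕ), ‖S.p n j - P j‖ < r := fun j => by
    have := (hP j).eventually (ball_mem_nhds _ hr)
    filter_upwards [this] with n hn
    rwa [← dist_eq_norm]
  have hev' : ∀ᶠ n in (UF : Filter ℕ), ∀ j : Fin 3, ‖S.p n j - P j‖ < r := by
    filter_upwards [hev 0, hev 1, hev 2] with n h0 h1 h2 j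
    fin_cases j
    · exact h0
    · exact h1
    · exact h2
  refine ⟨r, hr, ?_⟩
  filter_upwards [hev'] with n hn x hx j
  have h1 := hrj j
  have h2 := hn j
  have h3 : ‖q - P j‖ ≤ ‖x - q‖ + ‖x - S.p n j‖ + ‖S.p n j - P j‖ := by
    calc ‖q - P j‖ = ‖-(x - q) + (x - S.p n j) + (S.p n j - P j)‖ := by congr 1; ring
      _ ≤ ‖-(x - q) + (x - S.p n j)‖ + ‖S.p n j - P j‖ := norm_add_le _ _
      _ ≤ ‖-(x - q)‖ + ‖x - S.p n j‖ + ‖S.p n j - P j‖ := by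
        gcongr
        exact norm_add_le _ _
      _ = _ := by rw [norm_neg]
  linarith

/-- **Main lemma**: the value at any edge whose middle converges to `q` converges to `F q`. -/
theorem lim_val (hA2 : A2) (hP : ∀ j, Tendsto (fun n => S.p n j) UF (𝓝 (P j)))
    {v : ℕ → Vx} {k : ℕ → Fin 3} {q : ℕ → ℂ} {q' : ℂ}
    (hE : ∀ᶠ n in (UF : Filter ℕ), inE (S.U n) (ed (v n) (k n)))
    (hq : ∀ᶠ n in (UF : Filter ℕ), ‖q n‖ ≤ 1)
    (hφ : ∀ᶠ n in (UF : Filter ℕ), S.φ n (q n) = mid (v n) (k n))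
    (hlim : Tendsto q UF (𝓝 q')) (hq' : q' ∉ range P) (j : Fin 3)
    {c : ℕ → Ed → ZMod 2} (hc : ∀ᶠ n in (UF : Filter ℕ), IsRef (S.M n) (v n) (c n)) :
    Tendsto (fun n => X (S.M n) (c n) (v n) (k n) j) UF (𝓝 (S.F h1c j q')) := by
  have hq1 : ‖q'‖ ≤ 1 := le_of_tendsto hlim.norm hq
  obtain ⟨r, hr, hev⟩ := S.away hP hq'
  have h0 : Tendsto (fun n => X (S.M n) (c n) (v n) (k n) j - S.Val h1c n (S.sel n q') 0 j) UF
      (𝓝 0) := by
    rw [Metric.tendsto_nhds]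
    intro ε hε
    obtain ⟨δ, hδ, hA⟩ := S.A2_seq hA2 (half_pos hε) hr
    have hd : 0 < min (δ / 2) r := by positivity
    have hlim' : ∀ᶠ n in (UF : Filter ℕ), ‖q n - q'‖ < min (δ / 2) r := by
      filter_upwards [hlim.eventually (ball_mem_nhds _ hd)] with n hn
      rwa [← dist_eq_norm]
    filter_upwards [hE, hq, hφ, hev, hA, hlim', S.pre_sel_near hq1 (half_pos hδ), hc] with n a1 a2 a3
      a4 a5 a6 a7 a8
    obtain ⟨b1, -⟩ := S.sel_spec (n := n) hq1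
    obtain ⟨b2, b3⟩ := S.pre_spec b1
    have h9 := a5 (v n) (k n) (S.sel n q') 0 (q n) (S.pre n (S.sel n q') 0) a1 b1 a2 b2 a3 b3
      (by
        calc ‖q n - S.pre n (S.sel n q') 0‖ = ‖(q n - q') - (S.pre n (S.sel n q') 0 - q')‖ := by
              congr 1; ring
          _ ≤ ‖q n - q'‖ + ‖S.pre n (S.sel n q') 0 - q'‖ := norm_sub_le _ _
          _ ≤ δ / 2 + δ / 2 := add_le_add (a6.le.trans (min_le_left _ _)) a7
          _ = δ := by ring)
      (a4 _ (a6.le.trans (min_le_right _ _))) (c n) (S.cref h1c n (S.sel n q')) a8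
      (S.cref_spec h1c (inV_of_inE b1)) j
    rw [Real.dist_eq, sub_zero]
    exact lt_of_le_of_lt h9 (by linarith)
  have h1 := h0.add (S.F_lim h1c j q')
  rw [zero_add] at h1
  refine h1.congr (fun n => ?_)
  ring

lemma F_cont (hA2 : A2) (hP : ∀ j, Tendsto (fun n => S.p n j) UF (𝓝 (P j))) (j : Fin 3) :
    ContinuousOn (S.F h1c j) (closedBall 0 1 \ range P) := by
  intro q hq
  rw [Metric.continuousWithinAt_iff]
  intro ε hε
  obtain ⟨r, hr, hev⟩ := S.away hP hq.2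
  obtain ⟨δ, hδ, hA⟩ := S.A2_seq hA2 (half_pos hε) hr
  have hq1 : ‖q‖ ≤ 1 := by simpa using hq.1
  refine ⟨δ / 2, by positivity, fun {x} hx hxq => ?_⟩
  have hx1 : ‖x‖ ≤ 1 := by simpa using hx.1
  rw [Real.dist_eq]
  have h1 : Tendsto (fun n => |S.Val h1c n (S.sel n x) 0 j - S.Val h1c n (S.sel n q) 0 j|) UF
      (𝓝 |S.F h1c j x - S.F h1c j q|) := ((S.F_lim h1c j x).sub (S.F_lim h1c j q)).abs
  have h2 : |S.F h1c j x - S.F h1c j q| ≤ ε / 2 := by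
    apply le_of_tendsto h1
    have hd : 0 < min (δ / 4) r := by positivity
    filter_upwards [hev, hA, S.pre_sel_near hq1 hd, S.pre_sel_near hx1 (show 0 < δ / 4 by positivity)]
      with n a1 a2 a3 a4
    obtain ⟨b1, -⟩ := S.sel_spec (n := n) hq1
    obtain ⟨b2, b3⟩ := S.pre_spec b1
    obtain ⟨c1, -⟩ := S.sel_spec (n := n) hx1
    obtain ⟨c2, c3⟩ := S.pre_spec c1
    rw [abs_sub_comm]
    rw [dist_eq_norm] at hxq
    refine a2 (S.sel n q) 0 (S.sel n x) 0 (S.pre n (S.sel n q) 0) (S.pre n (S.sel n x) 0) b1 c1 b2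
      c2 b3 c3 ?_ (a1 _ (a3.trans (min_le_right _ _))) _ _ (S.cref_spec h1c (inV_of_inE b1))
      (S.cref_spec h1c (inV_of_inE c1)) j
    calc ‖S.pre n (S.sel n q) 0 - S.pre n (S.sel n x) 0‖ =
        ‖(S.pre n (S.sel n q) 0 - q) - (S.pre n (S.sel n x) 0 - x) - (x - q)‖ := by congr 1; ring
      _ ≤ ‖(S.pre n (S.sel n q) 0 - q) - (S.pre n (S.sel n x) 0 - x)‖ + ‖x - q‖ := norm_sub_le _ _
      _ ≤ ‖S.pre n (S.sel n q) 0 - q‖ + ‖S.pre n (S.sel n x) 0 - x‖ + ‖x - q‖ := by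
        gcongr
        exact norm_sub_le _ _
      _ ≤ δ / 4 + δ / 4 + δ / 2 := add_le_add (add_le_add (a3.trans (min_le_left _ _)) a4) hxq.le
      _ = δ := by ring
  linarith

/-- an edge near a non-mark has no mark as an end -/
lemma no_mark (hP : ∀ j, Tendsto (fun n => S.p n j) UF (𝓝 (P j))) {q' : ℂ} (hq' : q' ∉ range P)
    {v : ℕ → Vx} {k : ℕ → Fin 3} {q : ℕ → ℂ}
    (hE : ∀ᶠ n in (UF : Filter ℕ), inE (S.U n) (ed (v n) (k n)))
    (hq : ∀ᶠ n in (UF : Filter ℕ), ‖q n‖ ≤ 1)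
    (hφ : ∀ᶠ n in (UF : Filter ℕ), S.φ n (q n) = mid (v n) (k n))
    (hlim : Tendsto q UF (𝓝 q')) :
    ∀ᶠ n in (UF : Filter ℕ), ∀ j, v n ≠ (S.M n).u j ∧ nb (v n) (k n) ≠ (S.M n).u j := by
  obtain ⟨r, hr, hev⟩ := S.away hP hq'
  have hlim' : ∀ᶠ n in (UF : Filter ℕ), ‖q n - q'‖ < r := by
    filter_upwards [hlim.eventually (ball_mem_nhds _ hr)] with n hn
    rwa [← dist_eq_norm]
  filter_upwards [hE, hq, hφ, hev, hlim', S.near (half_pos hr)] with n a1 a2 a3 a4 a5 a6 j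
  obtain ⟨m1, m2⟩ := (S.sit n).mark j
  have key : ∀ w : Vx, pv w ∈ sg (ed (v n) (k n)) → w ≠ (S.M n).u j := by
    rintro w hw rfl
    rw [← m2] at hw
    have h5 : ∃ f ∈ S.U n, sg (ed (v n) (k n)) ⊆ cell f := by
      rcases (inE_iff _ _ _).1 a1 with h | h
      · exact ⟨_, h, (sg_sub_cell _ _).1⟩
      · exact ⟨_, h, (sg_sub_cell _ _).2⟩
    obtain ⟨f, hf, hfs⟩ := h5
    have h6 := a6 f hf (q n) (S.p n j) a2 m1.le (by rw [a3]; exact hfs (mid_mem_sg _ _)) (hfs hw)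
    have h7 := a4 (q n) a5.le j
    linarith
  refine ⟨key _ pv_mem_sg, key _ ?_⟩
  rw [← ed_nb]
  exact pv_mem_sg

lemma pre_sel_lim {q : ℂ} (hq : ‖q‖ ≤ 1) : Tendsto (fun n => S.pre n (S.sel n q) 0) UF (𝓝 q) := by
  rw [Metric.tendsto_nhds]
  intro ε hε
  filter_upwards [S.pre_sel_near hq (half_pos hε)] with n hn
  rw [dist_eq_norm]
  linarith

lemma F_sum (hP : ∀ j, Tendsto (fun n => S.p n j) UF (𝓝 (P j))) (h3c : D3c) {q : ℂ}
    (hq : q ∈ closedBall (0 : ℂ) 1 \ range P) : ∑ j : Fin 3, S.F h1c j q = 1 := by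
  have hq1 : ‖q‖ ≤ 1 := by simpa using hq.1
  have h1 : Tendsto (fun n => ∑ j : Fin 3, S.Val h1c n (S.sel n q) 0 j) UF
      (𝓝 (∑ j : Fin 3, S.F h1c j q)) := tendsto_finsetSum _ (fun j _ => S.F_lim h1c j q)
  have h2 := S.no_mark hP hq.2 (v := fun n => S.sel n q) (k := fun _ => 0)
    (q := fun n => S.pre n (S.sel n q) 0)
    (Eventually.of_forall fun n => (S.sel_spec hq1).1)
    (Eventually.of_forall fun n => (S.pre_spec (S.sel_spec hq1).1).1)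
    (Eventually.of_forall fun n => (S.pre_spec (S.sel_spec hq1).1).2) (S.pre_sel_lim hq1)
  refine tendsto_nhds_unique h1 (Tendsto.congr' ?_ tendsto_const_nhds)
  filter_upwards [h2] with n hn
  have hE := (S.sel_spec (n := n) hq1).1
  exact (h3c (S.U n) (S.M n) (S.sit n).dom (S.sel n q) 0 hE hn _
    (S.cref_spec h1c (inV_of_inE hE))).symm

lemma inj_p (n : ℕ) : Function.Injective (S.p n) := by
  intro j l h
  by_contra hne
  have := (S.sit n).sep j l hne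
  rw [h, sub_self, norm_zero] at this
  exact absurd S.hκ (not_lt.2 this)

/-- near a limit arc point the points of the sequence lie on the corresponding arcs -/
lemma arc_ev (hP : ∀ j, Tendsto (fun n => S.p n j) UF (𝓝 (P j))) (hPi : Function.Injective P)
    {l : Fin 3} {q : ℂ} (hq : q ∈ arc P l) : ∀ᶠ n in (UF : Filter ℕ), q ∈ arc (S.p n) l := by
  obtain ⟨g1, g2, g3⟩ := ne3 hPi l
  obtain ⟨n1, n2, n3⟩ := arc_ne hPi hq
  have h1 : Tendsto (fun n => (crossR (S.p n l) q (S.p n (l + 1)) (S.p n (l + 2))).re) UF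
      (𝓝 (crossR (P l) q (P (l + 1)) (P (l + 2))).re) := by
    apply (Complex.continuous_re.tendsto _).comp
    unfold crossR
    apply Tendsto.div
    · exact (tendsto_const_nhds.sub (hP l)).mul ((hP (l + 2)).sub (hP (l + 1)))
    · exact ((hP (l + 1)).sub (hP l)).mul ((hP (l + 2)).sub tendsto_const_nhds)
    · exact mul_ne_zero (sub_ne_zero.2 g1.symm) (sub_ne_zero.2 n3.symm)
  filter_upwards [h1.eventually_const_lt hq.2.1, h1.eventually_lt_const hq.2.2] with n a1 a2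
  exact ⟨hq.1, a1, a2⟩

lemma F_bdry (hA2 : A2) (hA1 : A1) (h4a : D4a)
    (hP : ∀ j, Tendsto (fun n => S.p n j) UF (𝓝 (P j))) (hPi : Function.Injective P)
    {l : Fin 3} {q : ℂ} (hq : q ∈ arc P l) : S.F h1c (l + 2) q = 0 := by
  have hqm := arc_notMem_range hPi hq
  have hq1 : ‖q‖ ≤ 1 := hq.1.le
  -- edges of `C l` near `q`
  have hex : ∀ n, ∃ e : Ed, q ∈ arc (S.p n) l → e ∈ (S.M n).C l ∧ S.φ n q ∈ sg e := by
    intro n
    by_cases h : q ∈ arc (S.p n) l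
    · have h2 := arc_sub (S.sit n).chart (S.sit n).mark (S.inj_p n)
        (hA1 (S.U n) (S.sit n).dom).2 l h
      obtain ⟨e, he, h3⟩ := (mem_AA _).1 h2
      exact ⟨e, fun _ => ⟨he, h3⟩⟩
    · exact ⟨(0, 0, 0), fun h' => absurd h' h⟩
  choose e he using hex
  have hev := S.arc_ev hP hPi hq
  have hE : ∀ᶠ n in (UF : Filter ℕ), inE (S.U n) (ed (uv (e n)) (e n).2.2) := by
    filter_upwards [hev] with n hn
    rw [ed_uv]
    have := ((S.M n).mem (e n)).2 ⟨l, (he n hn).1⟩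
    rcases this with h | h
    · exact Or.inl h.1
    · exact Or.inr h.2
  have hpre : ∀ᶠ n in (UF : Filter ℕ), ‖S.pre n (uv (e n)) (e n).2.2‖ ≤ 1 := by
    filter_upwards [hE] with n hn
    exact (S.pre_spec hn).1
  have hpre2 : ∀ᶠ n in (UF : Filter ℕ), S.φ n (S.pre n (uv (e n)) (e n).2.2) =
      mid (uv (e n)) (e n).2.2 := by
    filter_upwards [hE] with n hn
    exact (S.pre_spec hn).2
  have hlim : Tendsto (fun n => S.pre n (uv (e n)) (e n).2.2) UF (𝓝 q) := by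
    rw [Metric.tendsto_nhds]
    intro ε hε
    filter_upwards [hev, hE, hpre, hpre2, S.near (half_pos hε)] with n a1 a2 a3 a4 a5
    obtain ⟨b1, b2⟩ := he n a1
    have h5 : ∃ f ∈ S.U n, sg (e n) ⊆ cell f := by
      rw [ed_uv] at a2
      rcases a2 with h | h
      · exact ⟨_, h, (sg_lf _).1⟩
      · exact ⟨_, h, (sg_lf _).2⟩
    obtain ⟨f, hf, hfs⟩ := h5
    have h6 := a5 f hf _ q a3 hq1 (by
      rw [a4]
      apply hfs
      have := mid_mem_sg (uv (e n)) (e n).2.2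
      rwa [ed_uv] at this) (hfs b2)
    rw [dist_eq_norm]
    linarith
  have hL := S.lim_val h1c hA2 hP hE hpre hpre2 hlim hqm (l + 2)
    (c := fun n => S.cref h1c n (uv (e n)))
    (by
      filter_upwards [hE] with n hn
      exact S.cref_spec h1c (inV_of_inE hn))
  have hnm := S.no_mark hP hqm hE hpre hpre2 hlim
  refine tendsto_nhds_unique hL (Tendsto.congr' ?_ tendsto_const_nhds)
  filter_upwards [hev, hE, hnm] with n a1 a2 a3
  have := h4a (S.U n) (S.M n) (S.sit n).dom (uv (e n)) (e n).2.2 l (by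
    rw [ed_uv]; exact (he n a1).1) a3 _ (S.cref_spec h1c (inV_of_inE a2))
  exact this.symm

end Sq

end Pool.Agent.H21.UC
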